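import Pool.Agent.Helper36_XQ.Stmt4
import Pool.Agent.Helper69_AEU.Per

/-!
Squad XQ, module A4_HC4: certificate for the perimeter of the hull of four points.
-/

set_option autoImplicit false

namespace Pool.Agent.XQ.K4.H87

open MeasureTheory Complex Filter Topology Pool.Agent.H62T Pool.Agent.AEU
open Pool.Agent.H16F (Sublin)
open Pool.Agent.AEU.H69

/-- the left integral, for a point of the circle -/
theorem left_circ (F : ℂ → ℝ) (hF : Continuous fun θ : ℝ => F (ee θ)) (m0 m1 : ℂ)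
    (h0 : ∀ w, ip w m0 ≤ F w) (h1 : ∀ w, ip w m1 ≤ F w) (ψ : ℝ) (ha : Real.pi / 2 ≤ ψ)
    (hb : ψ ≤ 3 * Real.pi / 2) :
    (Real.sin ψ - 1) * m0.re - Real.cos ψ * m0.im + (-1 - Real.sin ψ) * m1.re
      + Real.cos ψ * m1.im ≤ ∫ θ in (Real.pi / 2)..(3 * Real.pi / 2), F (ee θ) := by
  have hii : ∀ a b : ℝ, IntervalIntegrable (fun θ : ℝ => F (ee θ)) volume a b := fun a b =>
    hF.intervalIntegrable a b
  rw [← intervalIntegral.integral_add_adjacent_intervals (hii (Real.pi / 2) ψ) (hii _ _)]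
  have key : ∀ (m : ℂ) (a b : ℝ), (∀ w, ip w m ≤ F w) → a ≤ b →
      (Real.sin b - Real.sin a) * m.re + (Real.cos a - Real.cos b) * m.im
        ≤ ∫ θ in a..b, F (ee θ) := by
    intro m a b hm hab
    have i1 : IntervalIntegrable (fun θ : ℝ => Real.cos θ * m.re) volume a b :=
      (Real.continuous_cos.mul continuous_const).intervalIntegrable _ _
    have i2 : IntervalIntegrable (fun θ : ℝ => Real.sin θ * m.im) volume a b :=
      (Real.continuous_sin.mul continuous_const).intervalIntegrable _ _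
    have e1 : ∫ θ in a..b, ip (ee θ) m
        = (Real.sin b - Real.sin a) * m.re + (Real.cos a - Real.cos b) * m.im := by
      simp only [ip_ee]
      rw [intervalIntegral.integral_add i1 i2, intervalIntegral.integral_mul_const,
        intervalIntegral.integral_mul_const, integral_cos, integral_sin]
    have i0 : IntervalIntegrable (fun θ : ℝ => ip (ee θ) m) volume a b :=
      ((H69.ip_cont m).comp ee_cont).intervalIntegrable _ _
    rw [← e1]
    exact intervalIntegral.integral_mono_on hab i0 (hii _ _) (fun θ _ => hm _)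
  have k0 := key m0 (Real.pi / 2) ψ h0 ha
  have k1 := key m1 ψ (3 * Real.pi / 2) h1 hb
  have s1 : Real.sin (3 * Real.pi / 2) = -1 := by
    rw [show 3 * Real.pi / 2 = Real.pi / 2 + Real.pi by ring, Real.sin_add_pi,
      Real.sin_pi_div_two]
  have c1 : Real.cos (3 * Real.pi / 2) = 0 := by
    rw [show 3 * Real.pi / 2 = Real.pi / 2 + Real.pi by ring, Real.cos_add_pi,
      Real.cos_pi_div_two, neg_zero]
  rw [Real.sin_pi_div_two, Real.cos_pi_div_two] at k0
  rw [s1, c1] at k1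
  linarith

/-- the left integral, for a point of the left half disc -/
theorem left_disc (F : ℂ → ℝ) (hF : Continuous fun θ : ℝ => F (ee θ)) (m0 m1 : ℂ)
    (h0 : ∀ w, ip w m0 ≤ F w) (h1 : ∀ w, ip w m1 ≤ F w) (q : ℂ) (hc : q.re ≤ 0)
    (hq : ‖q‖ ≤ 1) :
    (q.im - 1) * m0.re - q.re * m0.im + (-1 - q.im) * m1.re + q.re * m1.im
      ≤ ∫ θ in (Real.pi / 2)..(3 * Real.pi / 2), F (ee θ) := by
  have hcs : q.re ^ 2 + q.im ^ 2 ≤ 1 := by
    have h1 : ‖q‖ ^ 2 = q.re ^ 2 + q.im ^ 2 := by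
      rw [← Complex.normSq_eq_norm_sq, Complex.normSq_apply]; ring
    nlinarith [norm_nonneg q]
  generalize q.re = c at *
  generalize q.im = s at *
  have hc1 : -1 ≤ c := by nlinarith [sq_nonneg s, sq_nonneg (c + 1)]
  have hsq : 0 ≤ 1 - c ^ 2 := by linarith only [hcs, sq_nonneg s]
  set t := Real.sqrt (1 - c ^ 2) with ht
  have ht0 : 0 ≤ t := Real.sqrt_nonneg _
  have ht2 : t ^ 2 = 1 - c ^ 2 := Real.sq_sqrt hsq
  have hst : |s| ≤ t := by
    apply abs_le_of_sq_le_sq _ ht0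
    rw [ht2]; linarith
  rw [abs_le] at hst
  have hac : Real.pi / 2 ≤ Real.arccos c := by
    rw [← Real.arccos_zero]; exact Real.arccos_le_arccos hc
  have A := left_circ F hF m0 m1 h0 h1 (Real.arccos c) hac
    ((Real.arccos_le_pi c).trans (by linarith [Real.pi_pos]))
  have B := left_circ F hF m0 m1 h0 h1 (2 * Real.pi - Real.arccos c)
    (by linarith [Real.arccos_le_pi c, Real.pi_pos]) (by linarith)
  rw [Real.cos_arccos hc1 (by linarith), Real.sin_arccos, ← ht] at A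
  rw [Real.cos_two_pi_sub, Real.sin_two_pi_sub, Real.cos_arccos hc1 (by linarith),
    Real.sin_arccos, ← ht] at B
  rcases le_total m0.re m1.re with h | h
  · nlinarith only [B, hst, h]
  · nlinarith only [A, hst, h]

/-- nearly minimal positions at a corner with sides in the directions `exp (i η1)`,
`exp (- i η2)` -/
structure Cor (η1 η2 δ : ℝ) (P0 P1 : ℂ) : Prop where
  v0 : η2 < Real.pi / 2 → -δ ≤ -Real.sin η1 * P0.re + Real.cos η1 * P0.im
  v1 : η1 < Real.pi / 2 → -δ ≤ -Real.sin η2 * P1.re - Real.cos η2 * P1.im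
  e0 : ¬ η2 < Real.pi / 2 → P0 = P1 ∧ -Real.sin η1 * P0.re + Real.cos η1 * P0.im ≤ 0
  e1 : ¬ η1 < Real.pi / 2 → P0 = P1 ∧ -Real.sin η2 * P1.re - Real.cos η2 * P1.im ≤ 0

/-- `|a re + b im| ≤ ‖x‖` for unit vectors -/
theorem unit_le (a b : ℝ) (hab : a ^ 2 + b ^ 2 = 1) (x : ℂ) : |a * x.re + b * x.im| ≤ ‖x‖ := by
  apply abs_le_of_sq_le_sq _ (norm_nonneg x)
  have h1 : ‖x‖ ^ 2 = x.re ^ 2 + x.im ^ 2 := by
    rw [← Complex.normSq_eq_norm_sq, Complex.normSq_apply]; ring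
  rw [h1]
  nlinarith [sq_nonneg (a * x.im - b * x.re)]

/-- visited - visited: the lower bound of the left integral -/
theorem vv_left (η1 η2 : ℝ) (k1 : 0 < Real.cos η1) (k2 : 0 < Real.cos η2)
    (hS : 0 < Real.sin (η1 + η2)) (hC : Real.cos (η1 + η2) < 0) :
    ∃ r : ℝ, 0 < r ∧ ∀ (P0 P1 : ℂ) (F : ℂ → ℝ), (Continuous fun θ : ℝ => F (ee θ)) →
      (∀ w, ip w P0 ≤ F w) → (∀ w, ip w P1 ≤ F w) →
      r * ‖P0 - P1‖
        + 2 * Real.cos η2 / Real.sin (η1 + η2) * (-Real.sin η1 * P0.re + Real.cos η1 * P0.im)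
        + 2 * Real.cos η1 / Real.sin (η1 + η2) * (-Real.sin η2 * P1.re - Real.cos η2 * P1.im)
        ≤ ∫ θ in (Real.pi / 2)..(3 * Real.pi / 2), F (ee θ) := by
  set S := Real.sin (η1 + η2) with hSd
  have eS : S = Real.sin η1 * Real.cos η2 + Real.cos η1 * Real.sin η2 := Real.sin_add η1 η2
  have eC : Real.cos (η1 + η2) = Real.cos η1 * Real.cos η2 - Real.sin η1 * Real.sin η2 :=
    Real.cos_add η1 η2
  have p1 := Real.sin_sq_add_cos_sq η1
  set c0 := 2 * Real.cos η2 / S with hc0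
  set c1 := 2 * Real.cos η1 / S with hc1
  have c0S : c0 * S = 2 * Real.cos η2 := by rw [hc0]; field_simp
  have c1S : c1 * S = 2 * Real.cos η1 := by rw [hc1]; field_simp
  have c0p : 0 < c0 := by positivity
  have rel1 : c0 * Real.cos η1 = c1 * Real.cos η2 := by rw [hc0, hc1]; ring
  have rel2 : c0 * Real.sin η1 + c1 * Real.sin η2 = 2 := by
    have : S * (c0 * Real.sin η1 + c1 * Real.sin η2) = S * 2 := by
      have : S * (c0 * Real.sin η1 + c1 * Real.sin η2)
          = (c0 * S) * Real.sin η1 + (c1 * S) * Real.sin η2 := by ring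
      rw [this, c0S, c1S, eS]; ring
    exact mul_left_cancel₀ hS.ne' this
  have pos2 : 0 < 2 * Real.sin η1 - c0 := by
    have h1 : S * (2 * Real.sin η1 - c0) = -2 * Real.cos η1 * Real.cos (η1 + η2) := by
      have : S * (2 * Real.sin η1 - c0) = 2 * Real.sin η1 * S - c0 * S := by ring
      rw [this, c0S, eS, eC]
      have : Real.sin η1 ^ 2 = 1 - Real.cos η1 ^ 2 := by linarith
      linear_combination (2 * Real.cos η2) * p1
    have h2 : 0 < S * (2 * Real.sin η1 - c0) := by rw [h1]; nlinarith only [k1, hC]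
    by_contra hn
    push Not at hn
    nlinarith only [h1, k1, hC, hS, hn]
  set q : ℂ := ⟨-(c0 * Real.cos η1), 1 - c0 * Real.sin η1⟩ with hq
  have nq : ‖q‖ ^ 2 = 1 - c0 * (2 * Real.sin η1 - c0) := by
    rw [← Complex.normSq_eq_norm_sq, Complex.normSq_apply, hq]
    simp only
    linear_combination (c0 ^ 2) * p1
  have nq1 : ‖q‖ < 1 := by
    have h1 : 0 < c0 * (2 * Real.sin η1 - c0) := mul_pos c0p pos2
    nlinarith only [nq, h1, norm_nonneg q]
  have ck : 0 < c0 * Real.cos η1 := mul_pos c0p k1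
  refine ⟨min (c0 * Real.cos η1) (1 - ‖q‖), lt_min ck (by linarith), ?_⟩
  intro P0 P1 F hF h0 h1
  set r := min (c0 * Real.cos η1) (1 - ‖q‖) with hr
  have r0 : 0 < r := lt_min ck (by linarith)
  have r1 : r ≤ c0 * Real.cos η1 := min_le_left _ _
  have r2 : r ≤ 1 - ‖q‖ := min_le_right _ _
  -- the direction
  obtain ⟨e, he, hee⟩ : ∃ e : ℂ, ‖e‖ ≤ 1 ∧
      e.im * (P0 - P1).re - e.re * (P0 - P1).im = ‖P0 - P1‖ := by
    by_cases hz : P0 - P1 = 0
    · exact ⟨0, by simp, by rw [hz]; simp⟩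
    · have hn : 0 < ‖P0 - P1‖ := norm_pos_iff.2 hz
      refine ⟨((‖P0 - P1‖⁻¹ : ℝ) : ℂ) * (I * (P0 - P1)), ?_, ?_⟩
      · rw [norm_mul, norm_mul, Complex.norm_I, one_mul, Complex.norm_real, norm_inv, norm_norm,
          inv_mul_cancel₀ hn.ne']
      · have h2 : ‖P0 - P1‖ ^ 2 = (P0 - P1).re ^ 2 + (P0 - P1).im ^ 2 := by
          rw [← Complex.normSq_eq_norm_sq, Complex.normSq_apply]; ring
        rw [Complex.re_ofReal_mul, Complex.im_ofReal_mul, Complex.I_mul_re, Complex.I_mul_im]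
        have : ‖P0 - P1‖⁻¹ * (P0 - P1).re * (P0 - P1).re - ‖P0 - P1‖⁻¹ * -(P0 - P1).im
            * (P0 - P1).im = ‖P0 - P1‖⁻¹ * ‖P0 - P1‖ ^ 2 := by rw [h2]; ring
        rw [this, sq, ← mul_assoc, inv_mul_cancel₀ hn.ne', one_mul]
  have hre : |e.re| ≤ 1 := (Complex.abs_re_le_norm e).trans he
  rw [abs_le] at hre
  have L := left_disc F hF P0 P1 h0 h1 (q + (r : ℂ) * e)
    (by
      rw [Complex.add_re, Complex.re_ofReal_mul, hq]
      simp only
      nlinarith only [r1, r0, hre])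
    (by
      refine (norm_add_le _ _).trans ?_
      rw [norm_mul, Complex.norm_real, Real.norm_of_nonneg r0.le]
      nlinarith only [r2, r0, he, norm_nonneg e])
  rw [Complex.add_re, Complex.add_im, Complex.re_ofReal_mul, Complex.im_ofReal_mul] at L
  have qr : q.re = -(c0 * Real.cos η1) := rfl
  have qi : q.im = 1 - c0 * Real.sin η1 := rfl
  rw [qr, qi] at L
  refine le_trans (le_of_eq ?_) L
  rw [← hee]
  simp only [Complex.sub_re, Complex.sub_im]
  linear_combination (-P1.re) * rel2 + (P1.im) * rel1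

/-- the hypotheses at a corner -/
structure Hc (η1 η2 : ℝ) : Prop where
  a1 : 0 < η1
  a2 : 0 < η2
  a3 : Real.pi / 2 < η1 + η2
  a4 : η1 + η2 < Real.pi
  a5 : η1 ≠ Real.pi / 2
  a6 : η2 ≠ Real.pi / 2

/-- first coefficient -/
noncomputable def c0 (η1 η2 : ℝ) : ℝ := 2 * Real.cos η2 / Real.sin (η1 + η2)

/-- second coefficient -/
noncomputable def c1 (η1 η2 : ℝ) : ℝ := 2 * Real.cos η1 / Real.sin (η1 + η2)

variable {η1 η2 : ℝ}

theorem Hc.S (h : Hc η1 η2) : 0 < Real.sin (η1 + η2) :=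
  Real.sin_pos_of_pos_of_lt_pi (by linarith [h.a1, h.a2]) h.a4

theorem Hc.k1 (h : Hc η1 η2) (h1 : η1 < Real.pi / 2) : 0 < Real.cos η1 :=
  Real.cos_pos_of_mem_Ioo ⟨by linarith [h.a1, Real.pi_pos], h1⟩

theorem Hc.k2 (h : Hc η1 η2) (h1 : η2 < Real.pi / 2) : 0 < Real.cos η2 :=
  Real.cos_pos_of_mem_Ioo ⟨by linarith [h.a2, Real.pi_pos], h1⟩

theorem Hc.k1' (h : Hc η1 η2) (h1 : ¬ η1 < Real.pi / 2) : Real.cos η1 < 0 :=
  Real.cos_neg_of_pi_div_two_lt_of_lt (lt_of_le_of_ne (not_lt.1 h1) (Ne.symm h.a5))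
    (by linarith [h.a2, h.a4, Real.pi_pos])

theorem Hc.k2' (h : Hc η1 η2) (h1 : ¬ η2 < Real.pi / 2) : Real.cos η2 < 0 :=
  Real.cos_neg_of_pi_div_two_lt_of_lt (lt_of_le_of_ne (not_lt.1 h1) (Ne.symm h.a6))
    (by linarith [h.a1, h.a4, Real.pi_pos])

theorem Hc.ex (h : Hc η1 η2) (h1 : ¬ η1 < Real.pi / 2) : η2 < Real.pi / 2 := by
  have := not_lt.1 h1
  linarith [h.a4]

theorem Hc.p0 (h : Hc η1 η2) (h1 : η2 < Real.pi / 2) : 0 < c0 η1 η2 :=
  div_pos (by linarith [h.k2 h1]) h.S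

theorem Hc.p1 (h : Hc η1 η2) (h1 : η1 < Real.pi / 2) : 0 < c1 η1 η2 :=
  div_pos (by linarith [h.k1 h1]) h.S

theorem Hc.n0 (h : Hc η1 η2) (h1 : ¬ η2 < Real.pi / 2) : c0 η1 η2 < 0 :=
  div_neg_of_neg_of_pos (by linarith [h.k2' h1]) h.S

theorem Hc.n1 (h : Hc η1 η2) (h1 : ¬ η1 < Real.pi / 2) : c1 η1 η2 < 0 :=
  div_neg_of_neg_of_pos (by linarith [h.k1' h1]) h.S

/-- the identity for one point -/
theorem Hc.idn (h : Hc η1 η2) (P : ℂ) : -2 * P.re
    = c0 η1 η2 * (-Real.sin η1 * P.re + Real.cos η1 * P.im)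
      + c1 η1 η2 * (-Real.sin η2 * P.re - Real.cos η2 * P.im) := by
  have hS := h.S
  have eS := Real.sin_add η1 η2
  unfold c0 c1
  field_simp
  rw [eS]
  ring

/-- upper bound of the real part -/
theorem Hc.reb (h : Hc η1 η2) {δ : ℝ} {P0 P1 : ℂ} (hδ : 0 ≤ δ) (hcor : Cor η1 η2 δ P0 P1) :
    -((|c0 η1 η2| + |c1 η1 η2|) * (δ + ‖P0 - P1‖)) ≤ -2 * P0.re := by
  have nn := norm_nonneg (P0 - P1)
  have w1 : -Real.sin η2 * P1.re - Real.cos η2 * P1.im - ‖P0 - P1‖
      ≤ -Real.sin η2 * P0.re - Real.cos η2 * P0.im := by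
    have h := unit_le (-Real.sin η2) (-Real.cos η2)
      (by linarith only [Real.sin_sq_add_cos_sq η2]) (P0 - P1)
    rw [abs_le, Complex.sub_re, Complex.sub_im] at h
    linarith [h.1]
  have b0 := abs_nonneg (c0 η1 η2)
  have b1 := abs_nonneg (c1 η1 η2)
  have hid := h.idn P0
  rw [hid]
  by_cases h1 : η1 < Real.pi / 2
  · by_cases h2 : η2 < Real.pi / 2
    · have v0 := hcor.v0 h2
      have v1 := hcor.v1 h1
      have q0 := h.p0 h2
      have q1 := h.p1 h1
      rw [abs_of_pos q0, abs_of_pos q1]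
      have t0 := mul_le_mul_of_nonneg_left v0 q0.le
      have t1 := mul_le_mul_of_nonneg_left
        (by linarith only [w1, v1] : -(δ + ‖P0 - P1‖) ≤ -Real.sin η2 * P0.re - Real.cos η2 * P0.im) q1.le
      have t2 := mul_nonneg q0.le nn
      linarith
    · have v1 := hcor.v1 h1
      obtain ⟨ee0, e0'⟩ := hcor.e0 h2
      have q0 := h.n0 h2
      have q1 := h.p1 h1
      rw [abs_of_pos q1]
      have t0 := mul_nonneg_of_nonpos_of_nonpos q0.le e0'
      rw [← ee0] at v1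
      have t1 := mul_le_mul_of_nonneg_left v1 q1.le
      have t2 := mul_nonneg b0 hδ
      have t3 := mul_nonneg b0 nn
      have t4 := mul_nonneg q1.le nn
      linarith
  · have h2 := h.ex h1
    have v0 := hcor.v0 h2
    obtain ⟨ee1, e1'⟩ := hcor.e1 h1
    have q0 := h.p0 h2
    have q1 := h.n1 h1
    rw [abs_of_pos q0]
    rw [← ee1] at e1'
    have t1 := mul_nonneg_of_nonpos_of_nonpos q1.le e1'
    have t0 := mul_le_mul_of_nonneg_left v0 q0.le
    have t2 := mul_nonneg b1 hδ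
    have t3 := mul_nonneg b1 nn
    have t4 := mul_nonneg q0.le nn
    linarith

/-- the bound of the integral -/
theorem Hc.int (h : Hc η1 η2) : ∃ r : ℝ, 0 < r ∧ ∀ (δ : ℝ) (P0 P1 : ℂ), 0 ≤ δ →
    Cor η1 η2 δ P0 P1 → ∀ F : ℂ → ℝ, (Continuous fun θ : ℝ => F (ee θ)) →
      (∀ w, ip w P0 ≤ F w) → (∀ w, ip w P1 ≤ F w) →
      r * ‖P0 - P1‖ - (|c0 η1 η2| + |c1 η1 η2|) * δ
        ≤ ∫ θ in (Real.pi / 2)..(3 * Real.pi / 2), F (ee θ) := by
  by_cases h12 : η1 < Real.pi / 2 ∧ η2 < Real.pi / 2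
  · obtain ⟨h1, h2⟩ := h12
    have hC : Real.cos (η1 + η2) < 0 :=
      Real.cos_neg_of_pi_div_two_lt_of_lt h.a3 (by linarith [h.a4, Real.pi_pos])
    obtain ⟨r, r0, hr⟩ := vv_left η1 η2 (h.k1 h1) (h.k2 h2) h.S hC
    refine ⟨r, r0, ?_⟩
    intro δ P0 P1 hδ hcor F hF f0 f1
    have t := hr P0 P1 F hF f0 f1
    have v0 := hcor.v0 h2
    have v1 := hcor.v1 h1
    have q0 := h.p0 h2
    have q1 := h.p1 h1
    have t0 := mul_le_mul_of_nonneg_left v0 q0.le
    have t1 := mul_le_mul_of_nonneg_left v1 q1.le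
    rw [abs_of_pos q0, abs_of_pos q1]
    change r * ‖P0 - P1‖ + c0 η1 η2 * _ + c1 η1 η2 * _ ≤ _ at t
    linarith
  · refine ⟨1, one_pos, ?_⟩
    intro δ P0 P1 hδ hcor F hF f0 f1
    have e : P0 = P1 := by
      by_cases h1 : η1 < Real.pi / 2
      · exact (hcor.e0 fun h2 => h12 ⟨h1, h2⟩).1
      · exact (hcor.e1 h1).1
    have reb := h.reb hδ hcor
    have t := left_disc F hF P0 P1 f0 f1 (-1) (by simp) (by simp)
    rw [← e] at t
    simp only [Complex.neg_re, Complex.one_re, Complex.neg_im, Complex.one_im] at t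
    rw [← e, sub_self, norm_zero] at reb ⊢
    linarith

/-- the bound of the imaginary part -/
theorem Hc.im (h : Hc η1 η2) {X cM : ℝ} {P0 P1 : ℂ} {δ : ℝ} (hcM : 0 ≤ cM) (hX : 0 ≤ X)
    (hcor : Cor η1 η2 δ P0 P1) (hδ : δ + ‖P0 - P1‖ ≤ X) (lo : -X ≤ P0.re)
    (up : P0.re ≤ cM * X) :
    |P0.im| ≤ (cM + 2) * X * |Real.cos η1|⁻¹ + (cM + 2) * X * |Real.cos η2|⁻¹ := by
  have nn := norm_nonneg (P0 - P1)
  have w1 : -Real.sin η2 * P1.re - Real.cos η2 * P1.im - ‖P0 - P1‖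
      ≤ -Real.sin η2 * P0.re - Real.cos η2 * P0.im := by
    have h := unit_le (-Real.sin η2) (-Real.cos η2)
      (by linarith only [Real.sin_sq_add_cos_sq η2]) (P0 - P1)
    rw [abs_le, Complex.sub_re, Complex.sub_im] at h
    linarith [h.1]
  have m1 : 0 ≤ cM * X := mul_nonneg hcM hX
  have sb : ∀ s : ℝ, 0 < s → s ≤ 1 → -X ≤ s * P0.re ∧ s * P0.re ≤ cM * X := by
    intro s hs hs1
    constructor
    · nlinarith only [hX, hs1, lo, hs]
    · rcases le_total 0 P0.re with h | h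
      · nlinarith only [up, hs, m1, hs1]
      · nlinarith only [up, hs, m1, hs1]
  obtain ⟨l1, u1⟩ := sb _ (Real.sin_pos_of_pos_of_lt_pi h.a1 (by linarith [h.a2, h.a4]))
    (Real.sin_le_one η1)
  obtain ⟨l2, u2⟩ := sb _ (Real.sin_pos_of_pos_of_lt_pi h.a2 (by linarith [h.a1, h.a4]))
    (Real.sin_le_one η2)
  set D := (cM + 2) * X with hD
  have hDe : D = cM * X + 2 * X := by rw [hD]; ring
  have D0 : 0 ≤ D := by rw [hDe]; linarith
  have fin : ∀ k a : ℝ, 0 < k → k * a ≤ D → a ≤ D * k⁻¹ := by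
    intro k a hk ha
    rw [← div_eq_mul_inv, le_div_iff₀ hk]
    linarith
  have z1 : 0 ≤ D * |Real.cos η1|⁻¹ := by positivity
  have z2 : 0 ≤ D * |Real.cos η2|⁻¹ := by positivity
  rw [abs_le]
  by_cases h1 : η1 < Real.pi / 2
  · have k1 := h.k1 h1
    by_cases h2 : η2 < Real.pi / 2
    · have k2 := h.k2 h2
      have v0 := hcor.v0 h2
      have v1 := hcor.v1 h1
      rw [abs_of_pos k1] at *
      rw [abs_of_pos k2] at *
      constructor
      · have := fin _ (-P0.im) k1 (by linarith)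
        linarith
      · have := fin _ (P0.im) k2 (by linarith)
        linarith
    · have k2 := h.k2' h2
      have v1 := hcor.v1 h1
      obtain ⟨ee0, e0'⟩ := hcor.e0 h2
      rw [← ee0] at v1
      rw [abs_of_pos k1] at *
      rw [abs_of_neg k2] at *
      constructor
      · have := fin (-Real.cos η2) (-P0.im) (by linarith) (by linarith)
        linarith
      · have := fin _ (P0.im) k1 (by linarith)
        linarith
  · have k1 := h.k1' h1
    have h2 := h.ex h1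
    have k2 := h.k2 h2
    have v0 := hcor.v0 h2
    obtain ⟨ee1, e1'⟩ := hcor.e1 h1
    rw [← ee1] at e1'
    rw [abs_of_neg k1] at *
    rw [abs_of_pos k2] at *
    constructor
    · have := fin _ (-P0.im) k2 (by linarith)
      linarith
    · have := fin (-Real.cos η1) (P0.im) (by linarith) (by linarith)
      linarith

/-- the constants at a corner -/
theorem corner (h : Hc η1 η2) :
    ∃ C r : ℝ, 0 < C ∧ 0 < r ∧ ∀ (δ : ℝ) (P0 P1 : ℂ), 0 ≤ δ → Cor η1 η2 δ P0 P1 →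
      (∀ F : ℂ → ℝ, (Continuous fun θ : ℝ => F (ee θ)) → (∀ w, ip w P0 ≤ F w) →
        (∀ w, ip w P1 ≤ F w) →
        r * ‖P0 - P1‖ - C * δ ≤ ∫ θ in (Real.pi / 2)..(3 * Real.pi / 2), F (ee θ)) ∧
      P0.re ≤ C * (δ + ‖P0 - P1‖) ∧
      ∀ K : ℝ, 0 ≤ K → -K ≤ P0.re → |P0.im| ≤ C * (δ + ‖P0 - P1‖ + K) := by
  obtain ⟨r, r0, hr⟩ := h.int
  set cM := |c0 η1 η2| + |c1 η1 η2| with hcM
  have cM0 : 0 ≤ cM := by positivity
  set Z := (cM + 2) * |Real.cos η1|⁻¹ + (cM + 2) * |Real.cos η2|⁻¹ with hZ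
  have Z0 : 0 ≤ Z := by positivity
  refine ⟨cM + 1 + Z, r, by linarith, r0, ?_⟩
  intro δ P0 P1 hδ hcor
  have nn := norm_nonneg (P0 - P1)
  have reb := h.reb hδ hcor
  rw [← hcM] at reb
  have hX : 0 ≤ δ + ‖P0 - P1‖ := by linarith
  have t1 := mul_nonneg cM0 hX
  have t2 := mul_nonneg Z0 hX
  refine ⟨?_, ?_, ?_⟩
  · intro F hF f0 f1
    have t := hr δ P0 P1 hδ hcor F hF f0 f1
    have t3 := mul_nonneg Z0 hδ
    linarith
  · linarith
  · intro K hK hre
    have hX' : 0 ≤ δ + ‖P0 - P1‖ + K := by linarith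
    have t3 := mul_nonneg cM0 hK
    have t4 := mul_nonneg cM0 hX'
    have t := h.im (X := δ + ‖P0 - P1‖ + K) (cM := cM) cM0 hX' hcor (by linarith) (by linarith)
      (by linarith)
    refine t.trans ?_
    have e : (cM + 2) * (δ + ‖P0 - P1‖ + K) * |Real.cos η1|⁻¹
        + (cM + 2) * (δ + ‖P0 - P1‖ + K) * |Real.cos η2|⁻¹ = Z * (δ + ‖P0 - P1‖ + K) := by
      rw [hZ]; ring
    rw [e]
    linarith only [hδ, nn, t1, hK, t3]

theorem norm_le2 (z : ℂ) : ‖z‖ ≤ |z.re| + |z.im| := Complex.norm_le_abs_re_add_abs_im z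

theorem conj_ee (θ : ℝ) : -(starRingEnd ℂ) (ee θ) = ee (Real.pi - θ) := by
  rw [← ee_neg, ← ee_pi]
  congr 1
  ring

theorem u3_0 (η1 η2 ζ1 ζ2 : ℝ) (x : ℂ) :
    ip (u3 η1 η2 ζ1 ζ2 0) x = -Real.sin η1 * x.re + Real.cos η1 * x.im := by
  have : u3 η1 η2 ζ1 ζ2 0 = I * Complex.exp (η1 * I) := rfl
  rw [this]
  unfold ip
  rw [Complex.I_mul_re, Complex.I_mul_im, Complex.exp_ofReal_mul_I_re,
    Complex.exp_ofReal_mul_I_im]

theorem u3_1 (η1 η2 ζ1 ζ2 : ℝ) (x : ℂ) :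
    ip (u3 η1 η2 ζ1 ζ2 1) x = -Real.sin η2 * x.re - Real.cos η2 * x.im := by
  have : u3 η1 η2 ζ1 ζ2 1 = -(I * Complex.exp (((-η2 : ℝ) : ℂ) * I)) := by
    change -(I * exp (-(η2 * I))) = _
    congr 3
    push_cast
    ring
  rw [this]
  unfold ip
  rw [Complex.neg_re, Complex.neg_im, Complex.I_mul_re, Complex.I_mul_im,
    Complex.exp_ofReal_mul_I_re, Complex.exp_ofReal_mul_I_im, Real.sin_neg, Real.cos_neg]
  ring

theorem u3_2 (η1 η2 ζ1 ζ2 : ℝ) (x : ℂ) :
    ip (u3 η1 η2 ζ1 ζ2 2) x = Real.sin ζ1 * x.re + Real.cos ζ1 * x.im := by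
  have : u3 η1 η2 ζ1 ζ2 2 = exp ((Real.pi / 2 - ζ1 : ℝ) * I) := rfl
  rw [this]
  unfold ip
  rw [Complex.exp_ofReal_mul_I_re, Complex.exp_ofReal_mul_I_im, Real.cos_pi_div_two_sub,
    Real.sin_pi_div_two_sub]

theorem u3_3 (η1 η2 ζ1 ζ2 : ℝ) (x : ℂ) :
    ip (u3 η1 η2 ζ1 ζ2 3) x = Real.sin ζ2 * x.re - Real.cos ζ2 * x.im := by
  have : u3 η1 η2 ζ1 ζ2 3 = exp ((-(Real.pi / 2 - ζ2) : ℝ) * I) := rfl
  rw [this]
  unfold ip
  rw [Complex.exp_ofReal_mul_I_re, Complex.exp_ofReal_mul_I_im, Real.cos_neg, Real.sin_neg,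
    Real.cos_pi_div_two_sub, Real.sin_pi_div_two_sub]
  ring

theorem h3_2 (ζ1 ζ2 d : ℝ) : h3 ζ1 ζ2 d 2 = Real.sin ζ1 * d := by
  have : h3 ζ1 ζ2 d 2 = ip (exp ((Real.pi / 2 - ζ1 : ℝ) * I)) d := rfl
  rw [this]
  unfold ip
  rw [Complex.exp_ofReal_mul_I_re, Complex.exp_ofReal_mul_I_im, Real.cos_pi_div_two_sub,
    Real.sin_pi_div_two_sub, Complex.ofReal_re, Complex.ofReal_im]
  ring

theorem h3_3 (ζ1 ζ2 d : ℝ) : h3 ζ1 ζ2 d 3 = Real.sin ζ2 * d := by
  have : h3 ζ1 ζ2 d 3 = ip (exp ((-(Real.pi / 2 - ζ2) : ℝ) * I)) d := rfl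
  rw [this]
  unfold ip
  rw [Complex.exp_ofReal_mul_I_re, Complex.exp_ofReal_mul_I_im, Real.cos_neg, Real.sin_neg,
    Real.cos_pi_div_two_sub, Real.sin_pi_div_two_sub, Complex.ofReal_re, Complex.ofReal_im]
  ring

/-- the perimeter is the sum of the two half circles -/
theorem lam_split (p : Fin 4 → ℂ) (d : ℝ) :
    lam (hf p) = (∫ θ in (Real.pi / 2)..(3 * Real.pi / 2), hf p (ee θ))
      + ((∫ θ in (Real.pi / 2)..(3 * Real.pi / 2),
        (d * (ee θ).re + hf p (-(starRingEnd ℂ) (ee θ)))) + 2 * d) := by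
  have hs : Sublin (hf p) := sub_hf p
  have hc : Continuous fun θ : ℝ => hf p (ee θ) := (sub_cont hs).comp ee_cont
  have hii : ∀ a b : ℝ, IntervalIntegrable (fun θ : ℝ => hf p (ee θ)) volume a b := fun a b =>
    hc.intervalIntegrable a b
  have per : Function.Periodic (fun θ : ℝ => hf p (ee θ)) (2 * Real.pi) := fun θ => by
    simp only
    rw [ee_per θ]
  have h1 := per.intervalIntegral_add_eq 0 (-(Real.pi / 2))
  rw [zero_add] at h1
  rw [lam_def, h1, show -(Real.pi / 2) + 2 * Real.pi = 3 * Real.pi / 2 by ring,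
    ← intervalIntegral.integral_add_adjacent_intervals (hii (-(Real.pi / 2)) (Real.pi / 2))
      (hii _ _)]
  have i1 : IntervalIntegrable (fun θ : ℝ => d * (ee θ).re) volume (Real.pi / 2)
      (3 * Real.pi / 2) :=
    (continuous_const.mul (Complex.continuous_re.comp ee_cont)).intervalIntegrable _ _
  have i2 : IntervalIntegrable (fun θ : ℝ => hf p (ee (Real.pi - θ))) volume (Real.pi / 2)
      (3 * Real.pi / 2) :=
    (hc.comp (continuous_const.sub continuous_id)).intervalIntegrable _ _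
  simp only [conj_ee]
  rw [intervalIntegral.integral_add i1 i2,
    intervalIntegral.integral_comp_sub_left (fun θ => hf p (ee θ)) Real.pi]
  have e1 : ∫ θ in (Real.pi / 2)..(3 * Real.pi / 2), d * (ee θ).re = -2 * d := by
    have : ∀ θ : ℝ, (ee θ).re = Real.cos θ := fun θ => Complex.exp_ofReal_mul_I_re θ
    simp only [this]
    rw [intervalIntegral.integral_const_mul, integral_cos,
      show 3 * Real.pi / 2 = Real.pi / 2 + Real.pi by ring, Real.sin_add_pi,
      Real.sin_pi_div_two]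
    ring
  rw [e1, show Real.pi - 3 * Real.pi / 2 = -(Real.pi / 2) by ring,
    show Real.pi - Real.pi / 2 = Real.pi / 2 by ring]
  ring

theorem ip_conj (w x : ℂ) (d : ℝ) : ip w (d - (starRingEnd ℂ) x)
    = d * w.re + ip (-(starRingEnd ℂ) w) x := by
  unfold ip
  simp only [Complex.sub_re, Complex.sub_im, Complex.conj_re, Complex.conj_im, Complex.neg_re,
    Complex.neg_im, Complex.ofReal_re, Complex.ofReal_im]
  ring

/-- HC4 -/
theorem hc4 : Hc4Statement := by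
  intro η1 η2 ζ1 ζ2 d ρ hy hρ
  obtain ⟨C, r, C0, r0, hC⟩ := corner (η1 := η1) (η2 := η2)
    ⟨hy.a1, hy.a2, hy.a3, hy.a4, hy.a5, hy.a6⟩
  obtain ⟨C', r', C0', r0', hC'⟩ := corner (η1 := ζ1) (η2 := ζ2)
    ⟨hy.b1, hy.b2, hy.b3, hy.b4, hy.b5, hy.b6⟩
  set N := (C + C' + 1) * (r⁻¹ + r'⁻¹) with hN
  have ir : 0 < r⁻¹ := inv_pos.2 r0
  have ir' : 0 < r'⁻¹ := inv_pos.2 r0'
  have N0 : 0 < N := by rw [hN]; positivity
  set K := 1 / 2 + (C + C') * (1 + N) with hK
  have K0 : 0 < K := by rw [hK]; positivity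
  set T := K + (C + C') * (1 + N + K) with hT
  have T0 : 0 < T := by rw [hT]; positivity
  refine ⟨ρ / (T + 1), by positivity, ?_⟩
  set δ := ρ / (T + 1) with hδ
  have δ0 : 0 < δ := by rw [hδ]; positivity
  have Tδ : T * δ < ρ := by
    rw [hδ, mul_div_assoc', div_lt_iff₀ (by linarith)]
    linarith only [hρ]
  intro p hv he hw hl
  have hdp := hy.dpos
  -- the two corners
  have cor1 : Cor η1 η2 δ (p 0) (p 1) := by
    constructor
    · intro h
      have := hv 0 (by simp [Mv, h])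
      rw [u3_0] at this
      have e : h3 ζ1 ζ2 d 0 = 0 := rfl
      rw [e] at this; linarith
    · intro h
      have := hv 1 (by simp [Mv, h])
      rw [u3_1] at this
      have e : h3 ζ1 ζ2 d 1 = 0 := rfl
      rw [e] at this; linarith
    · intro h
      have := he 0 (by simp [Ev, h])
      rw [u3_0] at this
      exact this
    · intro h
      have := he 1 (by simp [Ev, h])
      rw [u3_1] at this
      exact this
  have cor2 : Cor ζ1 ζ2 δ (d - (starRingEnd ℂ) (p 2)) (d - (starRingEnd ℂ) (p 3)) := by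
    have r2 : ((d : ℂ) - (starRingEnd ℂ) (p 2)).re = d - (p 2).re := by simp
    have i2 : ((d : ℂ) - (starRingEnd ℂ) (p 2)).im = (p 2).im := by simp
    have r3 : ((d : ℂ) - (starRingEnd ℂ) (p 3)).re = d - (p 3).re := by simp
    have i3 : ((d : ℂ) - (starRingEnd ℂ) (p 3)).im = (p 3).im := by simp
    constructor
    · intro h
      have := hv 2 (by simp [Mw, h])
      rw [u3_2, h3_2] at this
      rw [r2, i2]; linarith only [this]
    · intro h
      have := hv 3 (by simp [Mw, h])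
      rw [u3_3, h3_3] at this
      rw [r3, i3]; linarith
    · intro h
      obtain ⟨e, h4⟩ := hw 2 (by simp [Ew, h])
      rw [u3_2, h3_2] at h4
      rw [r2, i2, e]
      refine ⟨rfl, ?_⟩
      rw [← e]; linarith
    · intro h
      obtain ⟨e, h4⟩ := hw 3 (by simp [Ew, h])
      rw [u3_3, h3_3] at h4
      rw [r3, i3, e]
      exact ⟨rfl, by linarith⟩
  obtain ⟨a1, a2, a3⟩ := hC δ _ _ δ0.le cor1
  obtain ⟨b1, b2, b3⟩ := hC' δ _ _ δ0.le cor2
  have hs : Sublin (hf p) := sub_hf p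
  have hc : Continuous fun θ : ℝ => hf p (ee θ) := (sub_cont hs).comp ee_cont
  have A := a1 (hf p) hc (fun w => le_hf p w 0) (fun w => le_hf p w 1)
  have B := b1 (fun w => d * w.re + hf p (-(starRingEnd ℂ) w))
    (by
      simp only [conj_ee]
      exact (continuous_const.mul (Complex.continuous_re.comp ee_cont)).add
        (hc.comp (continuous_const.sub continuous_id)))
    (fun w => by
      rw [ip_conj]
      exact add_le_add le_rfl (le_hf p _ 2))
    (fun w => by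
      rw [ip_conj]
      exact add_le_add le_rfl (le_hf p _ 3))
  have L := lam_split p d
  set n1 := ‖p 0 - p 1‖ with hn1
  set n2 := ‖(d : ℂ) - (starRingEnd ℂ) (p 2) - (d - (starRingEnd ℂ) (p 3))‖ with hn2
  have n10 : 0 ≤ n1 := norm_nonneg _
  have n20 : 0 ≤ n2 := norm_nonneg _
  have sum : r * n1 + r' * n2 ≤ (C + C' + 1) * δ := by
    linarith only [hl, L, A, B]
  have hCC : 0 ≤ (C + C' + 1) * δ := by positivity
  have q1 : n1 ≤ N * δ := by
    have h1 : r * n1 ≤ (C + C' + 1) * δ := by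
      have := mul_nonneg r0'.le n20
      linarith
    have h2 : n1 ≤ (C + C' + 1) * δ * r⁻¹ := by
      rw [← div_eq_mul_inv, le_div_iff₀ r0]; linarith only [h1]
    have h3 := mul_nonneg hCC ir'.le
    rw [hN]; linarith only [h2, h3]
  have q2 : n2 ≤ N * δ := by
    have h1 : r' * n2 ≤ (C + C' + 1) * δ := by
      have := mul_nonneg r0.le n10
      linarith
    have h2 : n2 ≤ (C + C' + 1) * δ * r'⁻¹ := by
      rw [← div_eq_mul_inv, le_div_iff₀ r0']; linarith only [h1]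
    have h3 := mul_nonneg hCC ir.le
    rw [hN]; linarith
  -- the distance of the corners
  have dist : 2 * ‖p 0 - p 2‖ ≤ lam (hf p) := by
    rw [← lam2]
    apply lam_mono (sub_hf _) hs
    intro w
    rw [hf2]
    exact max_le (le_hf p w 0) (le_hf p w 2)
  have dre : (p 2).re - (p 0).re ≤ ‖p 0 - p 2‖ := by
    have h1 := Complex.abs_re_le_norm (p 0 - p 2)
    rw [abs_le, Complex.sub_re] at h1
    linarith [h1.1]
  have r2 : ((d : ℂ) - (starRingEnd ℂ) (p 2)).re = d - (p 2).re := by simp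
  have m1 : C * (δ + n1) ≤ C * (1 + N) * δ := by
    have := mul_le_mul_of_nonneg_left q1 C0.le
    linarith only [this]
  have m2 : C' * (δ + n2) ≤ C' * (1 + N) * δ := by
    have := mul_le_mul_of_nonneg_left q2 C0'.le
    linarith only [this]
  have z1 : 0 ≤ C * (1 + N) * δ := by positivity
  have z2 : 0 ≤ C' * (1 + N) * δ := by positivity
  have Kδ : K * δ = 1 / 2 * δ + C * (1 + N) * δ + C' * (1 + N) * δ := by rw [hK]; ring
  rw [r2] at b2
  have lo1 : -(K * δ) ≤ (p 0).re := by linarith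
  have lo2 : -(K * δ) ≤ ((d : ℂ) - (starRingEnd ℂ) (p 2)).re := by rw [r2]; linarith
  have im1 := a3 (K * δ) (by positivity) lo1
  have im2 := b3 (K * δ) (by positivity) lo2
  have re1 : |(p 0).re| ≤ K * δ := by rw [abs_le]; constructor <;> linarith only [hl, b2, dist, dre, m2, z1, Kδ, δ0, a2, m1, z2]
  have re2 : |((d : ℂ) - (starRingEnd ℂ) (p 2)).re| ≤ K * δ := by
    rw [r2] at lo2 ⊢
    rw [abs_le]; constructor <;> linarith only [hl, a2, dist, dre, m1, z2, Kδ, δ0, b2, m2, z1]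
  have t1 : C * (δ + n1 + K * δ) ≤ C * (1 + N + K) * δ := by
    have := mul_le_mul_of_nonneg_left q1 C0.le
    linarith only [m1]
  have t2 : C' * (δ + n2 + K * δ) ≤ C' * (1 + N + K) * δ := by
    have := mul_le_mul_of_nonneg_left q2 C0'.le
    linarith only [m2]
  have y1 : 0 ≤ C * (1 + N + K) * δ := by positivity
  have y2 : 0 ≤ C' * (1 + N + K) * δ := by positivity
  have hTδ : T * δ = K * δ + C * (1 + N + K) * δ + C' * (1 + N + K) * δ := by rw [hT]; ring
  refine ⟨⟨0, ?_⟩, 2, ?_⟩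
  · have := norm_le2 (p 0)
    linarith only [Tδ, m1, im1, re1, y2, this]
  · have h1 := norm_le2 ((d : ℂ) - (starRingEnd ℂ) (p 2))
    have h2 : ‖p 2 - d‖ = ‖(d : ℂ) - (starRingEnd ℂ) (p 2)‖ := by
      have : (d : ℂ) - (starRingEnd ℂ) (p 2) = (starRingEnd ℂ) (d - p 2) := by
        rw [map_sub, Complex.conj_ofReal]
      rw [this, Complex.norm_conj, norm_sub_rev]
    rw [h2]
    linarith only [Tδ, m2, im2, re2, y1, h1]

end Pool.Agent.XQ.K4.H87
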