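import Pool.Agent.Helper36_XQ.Stmt4

/-!
Squad XQ, module A4_LO4: geometry of the lower bound in G4.
-/

set_option autoImplicit false

namespace Pool.Agent.XQ.K4.H87

open MeasureTheory Complex Filter Topology Pool.Agent.H62T Pool.Agent.AEU
open Pool.Agent.H16F (Sublin)

/-! ### Paths -/

/-- the steps -/
noncomputable def stp {n : ℕ} [NeZero n] (x : Fin n → ℂ) (l : ℕ) : ℝ :=
  ‖x (Fin.ofNat n l) - x (Fin.ofNat n (l + 1))‖

theorem stp_nonneg {n : ℕ} [NeZero n] (x : Fin n → ℂ) (l : ℕ) : 0 ≤ stp x l := norm_nonneg _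

theorem ofNat_succ {n : ℕ} [NeZero n] (j : Fin n) : Fin.ofNat n (j.val + 1) = j + 1 := by
  apply Fin.ext
  rw [Fin.val_add, Fin.val_one', Fin.val_ofNat]
  simp

theorem ofNat_val {n : ℕ} [NeZero n] (j : Fin n) : Fin.ofNat n j.val = j := by
  apply Fin.ext
  rw [Fin.val_ofNat]
  exact Nat.mod_eq_of_lt j.isLt

theorem ofNat_self {n : ℕ} [NeZero n] : Fin.ofNat n n = Fin.ofNat n 0 := by
  apply Fin.ext
  rw [Fin.val_ofNat, Fin.val_ofNat]
  simp

theorem pl_eq {n : ℕ} [NeZero n] (x : Fin n → ℂ) : Pl x = ∑ l ∈ Finset.Ico 0 n, stp x l := by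
  rw [← Finset.range_eq_Ico, Finset.sum_range]
  unfold Pl stp
  apply Finset.sum_congr rfl
  intro j _
  rw [ofNat_val, ofNat_succ]

theorem path_le {n : ℕ} [NeZero n] (x : Fin n → ℂ) (i j : ℕ) (hij : i ≤ j) :
    ‖x (Fin.ofNat n i) - x (Fin.ofNat n j)‖ ≤ ∑ l ∈ Finset.Ico i j, stp x l := by
  induction j, hij using Nat.le_induction with
  | base => simp
  | succ k hk ih =>
    rw [Finset.sum_Ico_succ_top hk]
    have : x (Fin.ofNat n i) - x (Fin.ofNat n (k + 1))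
        = (x (Fin.ofNat n i) - x (Fin.ofNat n k))
          + (x (Fin.ofNat n k) - x (Fin.ofNat n (k + 1))) := by ring
    rw [this]
    exact (norm_add_le _ _).trans (add_le_add ih le_rfl)

/-- the polygon with seven points -/
theorem seven {n : ℕ} [NeZero n] (x : Fin n → ℂ) (i1 i2 i3 i4 i5 i6 : ℕ) (h2 : i1 ≤ i2)
    (h3 : i2 ≤ i3) (h4 : i3 ≤ i4) (h5 : i4 ≤ i5) (h6 : i5 ≤ i6) (h7 : i6 ≤ n) :
    ‖x (Fin.ofNat n 0) - x (Fin.ofNat n i1)‖ + ‖x (Fin.ofNat n i1) - x (Fin.ofNat n i2)‖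
      + ‖x (Fin.ofNat n i2) - x (Fin.ofNat n i3)‖ + ‖x (Fin.ofNat n i3) - x (Fin.ofNat n i4)‖
      + ‖x (Fin.ofNat n i4) - x (Fin.ofNat n i5)‖ + ‖x (Fin.ofNat n i5) - x (Fin.ofNat n i6)‖
      + ‖x (Fin.ofNat n i6) - x (Fin.ofNat n 0)‖ ≤ Pl x := by
  rw [pl_eq]
  have e1 := Finset.sum_Ico_consecutive (stp x) (Nat.zero_le i1) (h2.trans (h3.trans (h4.trans
    (h5.trans (h6.trans h7)))))
  have e2 := Finset.sum_Ico_consecutive (stp x) h2 (h3.trans (h4.trans (h5.trans (h6.trans h7))))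
  have e3 := Finset.sum_Ico_consecutive (stp x) h3 (h4.trans (h5.trans (h6.trans h7)))
  have e4 := Finset.sum_Ico_consecutive (stp x) h4 (h5.trans (h6.trans h7))
  have e5 := Finset.sum_Ico_consecutive (stp x) h5 (h6.trans h7)
  have e6 := Finset.sum_Ico_consecutive (stp x) h6 h7
  have p1 := path_le x 0 i1 (Nat.zero_le _)
  have p2 := path_le x i1 i2 h2
  have p3 := path_le x i2 i3 h3
  have p4 := path_le x i3 i4 h4
  have p5 := path_le x i4 i5 h5
  have p6 := path_le x i5 i6 h6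
  have p7 := path_le x i6 n h7
  rw [ofNat_self] at p7
  linarith only [e1, e2, e3, e4, e5, e6, p1, p2, p3, p4, p5, p6, p7]

/-! ### Reflection -/

theorem nsq (z : ℂ) : ‖z‖ ^ 2 = z.re ^ 2 + z.im ^ 2 := by
  rw [← Complex.normSq_eq_norm_sq, Complex.normSq_apply]; ring

/-- a detour via a point below the line `im = c / 2` -/
theorem detour {c R : ℝ} (hc : 0 < c) (hR : 0 < R) {w a k : ℂ} (hw : c ≤ w.im) (ha : c ≤ a.im)
    (hwR : ‖w‖ ≤ R) (haR : ‖a‖ ≤ R) (hk : k.im ≤ c / 2) :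
    ‖w - a‖ + c ^ 2 / (4 * R + c) ≤ ‖w - k‖ + ‖k - a‖ := by
  set e := c / 2 with he
  -- the reflected point
  set a' : ℂ := ⟨a.re, 2 * e - a.im⟩ with ha'
  have r1 : a'.re = a.re := rfl
  have r2 : a'.im = 2 * e - a.im := rfl
  have h1 : ‖k - a'‖ ≤ ‖k - a‖ := by
    apply le_of_sq_le_sq _ (norm_nonneg _)
    rw [nsq, nsq, Complex.sub_re, Complex.sub_im, Complex.sub_re, Complex.sub_im, r1, r2]
    have : 0 ≤ (e - k.im) * (a.im - e) := mul_nonneg (by linarith) (by linarith)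
    linarith only [this]
  have h2 : ‖w - a'‖ ≤ ‖w - k‖ + ‖k - a'‖ := by
    have : w - a' = (w - k) + (k - a') := by ring
    rw [this]; exact norm_add_le _ _
  have h3 : ‖w - a‖ ^ 2 + c ^ 2 ≤ ‖w - a'‖ ^ 2 := by
    rw [nsq, nsq, Complex.sub_re, Complex.sub_im, Complex.sub_re, Complex.sub_im, r1, r2]
    have : (c / 2) * (c / 2) ≤ (w.im - e) * (a.im - e) :=
      mul_le_mul (by linarith) (by linarith) (by linarith) (by linarith)
    linarith only [this]
  have h4 : ‖w - a‖ ≤ 2 * R := by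
    have := norm_sub_le w a
    linarith
  have hpos : 0 < 4 * R + c := by linarith
  set f := c ^ 2 / (4 * R + c) with hf
  have f0 : 0 < f := by rw [hf]; positivity
  have f1 : f * (4 * R + c) = c ^ 2 := by rw [hf]; field_simp
  have f2 : f ≤ c := by
    rw [hf, div_le_iff₀ hpos]; nlinarith only [hc, hR]
  have h5 : ‖w - a‖ + f ≤ ‖w - a'‖ := by
    apply le_of_sq_le_sq _ (norm_nonneg _)
    have : (‖w - a‖ + f) ^ 2 ≤ ‖w - a‖ ^ 2 + c ^ 2 := by
      have g1 : 2 * ‖w - a‖ * f ≤ 4 * R * f := by nlinarith only [h4, f0]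
      have g2 : f ^ 2 ≤ c * f := by nlinarith only [hR, hc, f0, f1]
      linarith only [f1, g1, g2]
    linarith
  linarith

/-! ### The configuration -/

theorem u4_1 (α α' θ θ' : ℝ) (x : ℂ) : ip (u4 α α' θ θ' 1) x = -x.im := by
  have : u4 α α' θ θ' 1 = -I := by
    change -(I * exp (-((0 : ℝ) * I))) = _
    simp
  rw [this]
  unfold ip
  simp

theorem u4_norm (α α' θ θ' : ℝ) (s : Fin 4) : ‖u4 α α' θ θ' s‖ = 1 := by
  fin_cases s
  · change ‖I * exp (α * I)‖ = 1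
    rw [norm_mul, Complex.norm_I, Complex.norm_exp_ofReal_mul_I, one_mul]
  · change ‖-(I * exp (-((0 : ℝ) * I)))‖ = 1
    simp
  · change ‖exp ((Real.pi / 2 - α' : ℝ) * I)‖ = 1
    exact Complex.norm_exp_ofReal_mul_I _
  · change ‖exp ((Real.pi / 2 + (θ - θ') / 2 : ℝ) * I)‖ = 1
    exact Complex.norm_exp_ofReal_mul_I _

theorem rot_im (θ : ℝ) (w : ℂ) : (exp (θ * I) * w).im = Real.cos θ * w.im + Real.sin θ * w.re := by
  rw [Complex.mul_im, Complex.exp_ofReal_mul_I_re, Complex.exp_ofReal_mul_I_im]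

theorem win_im {θ ρ p : ℝ} (hs : 0 < Real.sin θ) {w : ℂ} (h1 : 9 / 20 * p < w.re)
    (h2 : |w.im| < ρ) : 9 / 20 * p * Real.sin θ - ρ ≤ Real.cos θ * w.im + Real.sin θ * w.re := by
  have h3 : |Real.cos θ * w.im| ≤ ρ := by
    rw [abs_mul]
    have := Real.abs_cos_le_one θ
    nlinarith only [h2, this, abs_nonneg w.im, abs_nonneg (Real.cos θ)]
  have h4 := (abs_le.1 h3).1
  nlinarith only [h4, hs, h1]

theorem win_norm {ρ p : ℝ} (hp : 0 < p) {w : ℂ} (h1 : 9 / 20 * p < w.re)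
    (h2 : w.re < 11 / 20 * p) (h3 : |w.im| < ρ) : ‖w‖ ≤ 11 / 20 * p + ρ := by
  refine (Complex.norm_le_abs_re_add_abs_im w).trans ?_
  have h1 : |w.re| ≤ 11 / 20 * p := by
    rw [abs_le]; constructor <;> linarith
  linarith

/-- LO4 -/
theorem lo4 (hPol : PolStatement) (hNr : Nr4Statement) : Lo4Statement := by
  intro α α' θ θ' d a hy
  obtain ⟨-, hTri, -, -, hP5⟩ := hPol
  obtain ⟨p, pp, ea⟩ := hy.ea
  obtain ⟨p', pp', ea'⟩ := hy.ea'
  have hd := hy.dpos
  have sθ : 0 < Real.sin θ :=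
    Real.sin_pos_of_pos_of_lt_pi hy.c1 (by linarith [hy.c2, hy.a2])
  have sθ' : 0 < Real.sin θ' :=
    Real.sin_pos_of_pos_of_lt_pi hy.c3 (by linarith [hy.c4, hy.b2])
  have na : ‖a‖ = p := by
    rw [ea, norm_mul, Complex.norm_exp_ofReal_mul_I, mul_one, Complex.norm_real,
      Real.norm_of_nonneg pp.le]
  have nad : ‖a - d‖ = p' := by
    have h1 : a - d = -(p' * exp (((-θ' : ℝ) : ℂ) * I)) := by
      rw [ea']
      push_cast
      rw [show -(θ' : ℂ) * I = -(θ' * I) by ring]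
      ring
    rw [h1, norm_neg, norm_mul, Complex.norm_exp_ofReal_mul_I, mul_one, Complex.norm_real,
      Real.norm_of_nonneg pp'.le]
  have ima : a.im = p * Real.sin θ := by
    rw [ea, Complex.im_ofReal_mul, Complex.exp_ofReal_mul_I_im]
  have ima0 : 0 < a.im := by rw [ima]; positivity
  set g := 9 / 40 * p * Real.sin θ with hg
  set g' := 9 / 40 * p' * Real.sin θ' with hg'
  have g0 : 0 < g := by rw [hg]; positivity
  have g0' : 0 < g' := by rw [hg']; positivity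
  refine ⟨min 1 (min g g'), lt_min one_pos (lt_min g0 g0'), ?_⟩
  intro ρ hρ hρ0
  have ρ1 : ρ < 1 := hρ0.trans_le (min_le_left _ _)
  have ρg : ρ < g := hρ0.trans_le ((min_le_right _ _).trans (min_le_left _ _))
  have ρg' : ρ < g' := hρ0.trans_le ((min_le_right _ _).trans (min_le_right _ _))
  set c := min a.im (min g g') with hc
  have c0 : 0 < c := lt_min ima0 (lt_min g0 g0')
  have ca : c ≤ a.im := min_le_left _ _
  have cg : c ≤ g := (min_le_right _ _).trans (min_le_left _ _)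
  have cg' : c ≤ g' := (min_le_right _ _).trans (min_le_right _ _)
  set R := d + p + p' + 1 with hR
  have R0 : 0 < R := by rw [hR]; positivity
  set f := c ^ 2 / (4 * R + c) with hf
  have f0 : 0 < f := by rw [hf]; positivity
  obtain ⟨δN, δN0, hN⟩ := hNr α α' θ θ' d a (f / 12) hy (by positivity)
  refine ⟨min δN (c / 2), L4 d a + min δN (f / 2), lt_min δN0 (by linarith only [c0]),
    by linarith only [lt_min δN0 (by linarith : 0 < f / 2)], ?_⟩
  set δ := min δN (c / 2) with hδ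
  have δ1 : δ ≤ δN := min_le_left _ _
  have δ2 : δ ≤ c / 2 := min_le_right _ _
  intro n _ ia ib x A ha hab hb hPA hCns hSho hvis
  by_contra hlt
  push Not at hlt
  have l1' : min δN (f / 2) ≤ δN := min_le_left _ _
  have l2' : min δN (f / 2) ≤ f / 2 := min_le_right _ _
  obtain ⟨x0, xa, xb, ⟨M0, E0⟩, ⟨M1, E1⟩, M2, E2⟩ := hPA
  obtain ⟨hPl, -, hδ5⟩ := hP5 (u4 α α' θ θ') (h4 α' θ θ' d a) n x A (u4_norm α α' θ θ')
  obtain ⟨-, hvs⟩ := hδ5 δ hSho
  -- the visits
  obtain ⟨l2, hl2, v2⟩ := M0 2 (by simp [M4])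
  obtain ⟨l3, hl3, hl3', v3⟩ := M1 3 (by simp [M4])
  obtain ⟨l0, hl0, hl0', v0⟩ := M2 0 (by simp [M4])
  obtain ⟨j, hj⟩ := hvis
  rw [Finset.disjoint_singleton_right, not_not] at hj
  -- the visit of label 1 is on arc 1
  have hj1 : ia ≤ j.val ∧ j.val < ib := by
    constructor
    · by_contra h
      push Not at h
      have := E0 j.val h
      rw [ofNat_val] at this
      have e : E4 0 = {1} := rfl
      rw [e, Finset.disjoint_singleton_right] at this
      exact this hj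
    · by_contra h
      push Not at h
      have := E2 j.val h j.isLt
      rw [ofNat_val] at this
      have e : E4 2 = {1} := rfl
      rw [e, Finset.disjoint_singleton_right] at this
      exact this hj
  set l1 := j.val with hl1
  have v1 : (1 : Fin 4) ∈ A (Fin.ofNat n l1) := by rw [hl1, ofNat_val]; exact hj
  -- positions
  have imK : (x (Fin.ofNat n l1)).im ≤ c / 2 := by
    have := hvs (Fin.ofNat n l1) 1 v1
    rw [u4_1] at this
    have e : h4 α' θ θ' d a 1 = 0 := rfl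
    rw [e] at this
    linarith only [δ2, this]
  have im2 : 0 < (x (Fin.ofNat n l2)).im := by
    have e : E4 0 = {1} := rfl
    have h1 := E0 l2 hl2
    rw [e, Finset.disjoint_singleton_right] at h1
    have := (hCns _ 1 h1).1
    rw [u4_1] at this
    have e : h4 α' θ θ' d a 1 = 0 := rfl
    rw [e] at this
    linarith only [this]
  have im0 : 0 < (x (Fin.ofNat n l0)).im := by
    have e : E4 2 = {1} := rfl
    have h1 := E2 l0 hl0 hl0'
    rw [e, Finset.disjoint_singleton_right] at h1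
    have := (hCns _ 1 h1).1
    rw [u4_1] at this
    have e : h4 α' θ θ' d a 1 = 0 := rfl
    rw [e] at this
    linarith only [this]
  have t0 := hvs _ _ v0
  have t2 := hvs _ _ v2
  have t3 := hvs _ _ v3
  have tri := hTri n x (Fin.ofNat n l0) (Fin.ofNat n l2) (Fin.ofNat n l3)
  obtain ⟨n0, n2, n3⟩ := hN (x (Fin.ofNat n l0)) (x (Fin.ofNat n l2)) (x (Fin.ofNat n l3))
    (by linarith only [hlt, l1', hPl, tri]) (by linarith only [δ1, t0]) (by linarith only [δN0, im0]) (by linarith only [δ1, t2]) (by linarith only [δN0, im2]) (by linarith only [δ1, t3])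
  -- the windows
  obtain ⟨w1, hw1, ez⟩ := xa
  obtain ⟨w2, hw2, ey⟩ := xb
  rw [nad] at hw1
  rw [na] at hw2
  obtain ⟨w1a, w1b, w1c⟩ := hw1
  obtain ⟨w2a, w2b, w2c⟩ := hw2
  have imZ : c ≤ (x (Fin.ofNat n ia)).im := by
    have h1 : (x (Fin.ofNat n ia)).im = (exp (θ' * I) * w1).im := by
      rw [← ez]
      change ((d : ℂ) - (starRingEnd ℂ) (exp (θ' * I) * w1)).im = _
      rw [Complex.sub_im, Complex.conj_im, Complex.ofReal_im]
      ring
    rw [h1, rot_im]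
    have h3 := win_im sθ' w1a w1c
    have h4 : 9 / 20 * p' * Real.sin θ' = 2 * g' := by rw [hg']; ring
    linarith only [hg', ρg', cg', h3]
  have imY : c ≤ (x (Fin.ofNat n ib)).im := by
    have h1 : (x (Fin.ofNat n ib)).im = (exp (θ * I) * w2).im := by
      rw [← ey]
    rw [h1, rot_im]
    have h3 := win_im sθ w2a w2c
    have h4 : 9 / 20 * p * Real.sin θ = 2 * g := by rw [hg]; ring
    linarith only [hg, ρg, cg, h3]
  have nw1 := win_norm pp' w1a w1b w1c
  have nw2 := win_norm pp w2a w2b w2c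
  have nZ : ‖x (Fin.ofNat n ia)‖ ≤ R := by
    rw [← ez]
    simp only
    refine (norm_sub_le _ _).trans ?_
    rw [Complex.norm_conj, norm_mul, Complex.norm_exp_ofReal_mul_I, one_mul, Complex.norm_real,
      Real.norm_of_nonneg hd.le, hR]
    linarith only [pp, pp', ρ1, nw1]
  have nY : ‖x (Fin.ofNat n ib)‖ ≤ R := by
    rw [← ey]
    simp only
    rw [norm_mul, Complex.norm_exp_ofReal_mul_I, one_mul, hR]
    linarith only [pp, pp', hd, ρ1, nw2]
  have naR : ‖a‖ ≤ R := by rw [na, hR]; linarith only [pp', hd]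
  -- names
  generalize hX : x (Fin.ofNat n 0) = X at *
  generalize hZ : x (Fin.ofNat n ia) = Z at *
  generalize hY : x (Fin.ofNat n ib) = Y at *
  generalize hK : x (Fin.ofNat n l1) = K at *
  generalize hp2 : x (Fin.ofNat n l2) = q2 at *
  generalize hp3 : x (Fin.ofNat n l3) = q3 at *
  generalize hp0 : x (Fin.ofNat n l0) = q0 at *
  have b1 : ‖X - d‖ ≤ ‖X - q2‖ + ‖q2 - d‖ := by
    have := norm_sub_le_norm_sub_add_norm_sub X q2 (d : ℂ); exact this
  have b2 : ‖(d : ℂ) - Z‖ ≤ ‖q2 - d‖ + ‖q2 - Z‖ := by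
    have := norm_sub_le_norm_sub_add_norm_sub (d : ℂ) q2 Z
    rwa [norm_sub_rev (d : ℂ) q2] at this
  have b5 : ‖Y‖ ≤ ‖Y - q0‖ + ‖q0‖ := by
    have := norm_sub_le_norm_sub_add_norm_sub Y q0 0
    rwa [sub_zero, sub_zero] at this
  have b6 : ‖X‖ ≤ ‖q0 - X‖ + ‖q0‖ := by
    have := norm_sub_le_norm_sub_add_norm_sub X q0 0
    rwa [sub_zero, sub_zero, norm_sub_rev X q0] at this
  have s1 : d ≤ ‖X‖ + ‖X - d‖ := by
    have := norm_sub_le_norm_sub_add_norm_sub (0 : ℂ) X (d : ℂ)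
    rwa [zero_sub, zero_sub, norm_neg, norm_neg, Complex.norm_real,
      Real.norm_of_nonneg hd.le] at this
  have s2 : ‖a - d‖ ≤ ‖(d : ℂ) - Z‖ + ‖Z - a‖ := by
    have := norm_sub_le_norm_sub_add_norm_sub (d : ℂ) Z a
    rwa [norm_sub_rev (d : ℂ) a] at this
  have s3 : ‖a‖ ≤ ‖Y - a‖ + ‖Y‖ := by
    have := norm_sub_le_norm_sub_add_norm_sub a Y 0
    rwa [sub_zero, sub_zero, norm_sub_rev a Y] at this
  have hL : L4 d a = d + ‖a‖ + ‖a - d‖ := rfl
  rcases le_total l1 l3 with hll | hll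
  · have S := seven x l2 ia l1 l3 ib l0 hl2.le hj1.1 hll hl3'.le hl0 hl0'.le
    rw [hX, hZ, hY, hK, hp2, hp3, hp0] at S
    have D := detour c0 R0 imZ ca nZ naR imK
    have b3 : ‖K - a‖ ≤ ‖K - q3‖ + ‖q3 - a‖ := norm_sub_le_norm_sub_add_norm_sub _ _ _
    have b4 : ‖Y - a‖ ≤ ‖q3 - Y‖ + ‖q3 - a‖ := by
      have := norm_sub_le_norm_sub_add_norm_sub Y q3 a
      rwa [norm_sub_rev Y q3] at this
    rw [← hf] at D
    linarith only [hlt, l2', hPl, n2, n3, n0, b1, b2, b5, b6, s1, s2, s3, hL, S, D, b3, b4]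
  · have S := seven x l2 ia l3 l1 ib l0 hl2.le hl3 hll hj1.2.le hl0 hl0'.le
    rw [hX, hZ, hY, hK, hp2, hp3, hp0] at S
    have D := detour c0 R0 imY ca nY naR imK
    have b3 : ‖K - a‖ ≤ ‖q3 - K‖ + ‖q3 - a‖ := by
      have := norm_sub_le_norm_sub_add_norm_sub K q3 a
      rwa [norm_sub_rev K q3] at this
    have b4 : ‖Z - a‖ ≤ ‖Z - q3‖ + ‖q3 - a‖ := norm_sub_le_norm_sub_add_norm_sub _ _ _
    have b7 : ‖Y - K‖ = ‖K - Y‖ := norm_sub_rev _ _
    rw [← hf] at D
    linarith only [hlt, l2', hPl, n2, n3, n0, b1, b2, b5, b6, s1, s2, s3, hL, S, D, b3, b4, b7]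

end Pool.Agent.XQ.K4.H87
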