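import Pool.Agent.Helper16_XQ.StmtG
import Pool.Agent.Helper69_AEU.Tools
import Pool.Agent.Helper69_AEU.Lam
import Pool.Agent.Helper69_AEU.Per

/-!
Squad XQ, module G_CL5: a special body of length `L` with at least five contacts can be placed.
-/

set_option autoImplicit false

namespace Pool.Agent.XQ

open MeasureTheory Complex Filter Topology Pool.Agent.H62T
open Pool.Agent.H16F (Sublin)
open Pool.Agent.AEU

namespace H87

/-- hull of the points `x s`, `s ∈ A` -/
noncomputable def hA (A : Finset HP) (x : HP → ℂ) : ℂ → ℝ := hf fun s : A => x s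

theorem hA_eq {A : Finset HP} (hne : A.Nonempty) (x : HP → ℂ) :
    ∃ (m : ℕ) (e : Fin (m + 1) ≃ A), hA A x = hf fun i => x (e i) := by
  obtain ⟨m, hm⟩ : ∃ m, A.card = m + 1 := ⟨A.card - 1, by have := hne.card_pos; omega⟩
  refine ⟨m, (A.equivFinOfCardEq hm).symm, ?_⟩
  funext w
  unfold hA hf
  exact ((A.equivFinOfCardEq hm).symm.iSup_comp (g := fun s : A => ip w (x s))).symm

theorem hA_spec {A : Finset HP} (hne : A.Nonempty) (x : HP → ℂ) :
    Sublin (hA A x) ∧ (∀ w, ∀ s ∈ A, ip w (x s) ≤ hA A x w) ∧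
    (∀ w, ∃ s ∈ A, hA A x w = ip w (x s)) ∧
    ∀ (w : ℂ) (c : ℝ), hA A x w ≤ c ↔ ∀ s ∈ A, ip w (x s) ≤ c := by
  obtain ⟨m, e, he⟩ := hA_eq hne x
  obtain ⟨h1, h2, h3, h4, h5, h6⟩ := H69.hul m (fun i => x (e i))
  rw [he]
  refine ⟨h1, ?_, ?_, ?_⟩
  · intro w s hs
    have := h2 (e.symm ⟨s, hs⟩) w
    simpa using this
  · intro w
    obtain ⟨i, hi⟩ := h3 w
    exact ⟨_, (e i).2, hi⟩
  · intro w c
    rw [h5]
    constructor
    · intro h s hs
      have := h (e.symm ⟨s, hs⟩)
      simpa using this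
    · intro h i
      exact h _ (e i).2

theorem mb_mono (g : Iso2) {h k : ℂ → ℝ} (hle : ∀ w, k w ≤ h w) (w : ℂ) :
    mb g k w ≤ mb g h w := by
  unfold mb
  linarith [hle (g.linearIsometryEquiv.symm w)]

theorem fits_mono {X : Finset HP} {h k : ℂ → ℝ} (hle : ∀ w, k w ≤ h w) (f : Fits X h) :
    Fits X k :=
  fun s hs => (hle _).trans (f s hs)

theorem lcx_use {X Y : Finset HP} {L : ℝ} (hlcx : LcxStatement) (E : Env X Y L) {h k : ℂ → ℝ}
    (hk : Sublin k) (hh : Sublin h) (fk : Fits X k) (fh : Fits X h) (lk : lam k < L)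
    (lh : lam h ≤ L) {T1 : Finset HP} (h1 : T1 ⊆ touch X k) (h2 : T1 ⊆ touch X h)
    (c : 4 ≤ T1.card) :
    ∃ g, Fits Y (mb g h) ∧ ∀ s ∈ T1, mv g s ∈ Y := by
  have hs : T1 ⊆ touch X k ∩ touch X h := Finset.subset_inter h1 h2
  have hc := Finset.card_le_card hs
  obtain ⟨g, -, g2, g3⟩ := hlcx X Y L E k h hk hh fk fh lk lh (by omega) (Or.inr (by omega))
  exact ⟨g, g2, fun s hs' => g3 s (hs hs')⟩

theorem unify {X Y : Finset HP} {L : ℝ} (E : Env X Y L) {h k : ℂ → ℝ} {g1 g2 : Iso2}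
    (hk : Sublin k) (hle : ∀ w, k w ≤ h w) (fh : Fits X h) (lk : lam k < L)
    (f1 : Fits Y (mb g1 h)) (f2 : Fits Y (mb g2 h)) {S : Finset HP} (hS : S ⊆ touch X k)
    (c : 3 ≤ S.card) (m1 : ∀ s ∈ S, mv g1 s ∈ Y) (m2 : ∀ s ∈ S, mv g2 s ∈ Y) : g1 = g2 := by
  obtain ⟨S', hS', c'⟩ := Finset.exists_subset_card_eq c
  exact E.uq g1 g2 S' k
    ⟨c', hk, fits_mono hle fh, fits_mono (mb_mono g1 hle) f1, hS'.trans hS,
      fun s hs => m1 s (hS' hs)⟩
    ⟨c', hk, fits_mono hle fh, fits_mono (mb_mono g2 hle) f2, hS'.trans hS,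
      fun s hs => m2 s (hS' hs)⟩ lk

end H87

open H87

theorem cl5 (hvxx : VxxStatement) (hlcx : LcxStatement) (hslx : SlxStatement) :
    Cl5Statement := by
  classical
  intro X Y L E h hsp hlam h5
  obtain ⟨v1, -, -, -, -, -, -, -, -, -, v11⟩ := hvxx X E.pg
  have hsub := hsp.sub
  have hfit := hsp.fits
  set T := touch X h with hT
  have hTX : T ⊆ X := Finset.filter_subset _ _
  -- contact points
  have hcont : ∀ s : HP, ∃ x, s ∈ T → In x h ∧ x ∈ Cl X ∧ ip s.1 x = s.2 := by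
    intro s
    by_cases hs : s ∈ T
    · obtain ⟨x, hx⟩ := v11 h hsub hfit s hs
      exact ⟨x, fun _ => hx⟩
    · exact ⟨0, fun h => absurd h hs⟩
  choose x hx using hcont
  have sub_le : ∀ A ⊆ T, A.Nonempty → ∀ w, hA A x w ≤ h w := fun A hAT hne w =>
    ((hA_spec hne x).2.2.2 w _).2 fun s hs => (hx s (hAT hs)).1 w
  have lt_ne : ∀ A ⊆ T, A.Nonempty → hA A x ≠ h → lam (hA A x) < L := by
    intro A hAT hne hn
    rw [← hlam]
    by_contra hcon
    push Not at hcon
    exact hn ((H69.lamS.2.1 _ _ (hA_spec hne x).1 hsub (sub_le A hAT hne)).2 hcon)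
  have tch : ∀ A ⊆ T, A.Nonempty → ∀ t ∈ T, (∃ a ∈ A, ip t.1 (x a) = t.2) →
      t ∈ touch X (hA A x) := by
    rintro A hAT hne t ht ⟨a, ha, hat⟩
    rw [H69.mem_touch]
    refine ⟨hTX ht, le_antisymm ((sub_le A hAT hne _).trans (hfit t (hTX ht))) ?_⟩
    rw [← hat]
    exact (hA_spec hne x).2.1 t.1 a ha
  have hTne : T.Nonempty := Finset.card_pos.1 (by omega)
  by_cases hTh : hA T x = h
  swap
  · exact lcx_use hlcx E (hA_spec hTne x).1 hsub (fits_mono (sub_le T subset_rfl hTne) hfit) hfit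
      (lt_ne T subset_rfl hTne hTh) hlam.le
      (fun t ht => tch T subset_rfl hTne t ht ⟨t, ht, (hx t ht).2.2⟩) subset_rfl (by omega)
  -- a smallest set of contact points which spans the body
  obtain ⟨A, hAT, hAne, hAh, hmin⟩ : ∃ A ⊆ T, A.Nonempty ∧ hA A x = h ∧
      ∀ B ⊆ T, B.Nonempty → hA B x = h → A.card ≤ B.card := by
    set F := T.powerset.filter fun B => B.Nonempty ∧ hA B x = h with hF
    have hFne : F.Nonempty :=
      ⟨T, Finset.mem_filter.2 ⟨Finset.mem_powerset.2 subset_rfl, hTne, hTh⟩⟩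
    obtain ⟨A, hA1, hA2⟩ := Finset.exists_min_image F Finset.card hFne
    rw [hF, Finset.mem_filter, Finset.mem_powerset] at hA1
    refine ⟨A, hA1.1, hA1.2.1, hA1.2.2, fun B hB hBne hBh => hA2 B ?_⟩
    rw [hF, Finset.mem_filter, Finset.mem_powerset]
    exact ⟨hB, hBne, hBh⟩
  have hne1 : ∀ a ∈ A, (A.erase a).Nonempty → hA (A.erase a) x ≠ h := by
    intro a ha hne hcon
    have h1 := hmin _ ((Finset.erase_subset a A).trans hAT) hne hcon
    have h2 := Finset.card_erase_lt_of_mem ha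
    omega
  have hal : ∀ t : HP, ∃ a, (t ∈ T → a ∈ A ∧ ip t.1 (x a) = t.2) ∧ (t ∈ A → a = t) := by
    intro t
    by_cases htA : t ∈ A
    · exact ⟨t, fun ht => ⟨htA, (hx t ht).2.2⟩, fun _ => rfl⟩
    · by_cases ht : t ∈ T
      · obtain ⟨a, ha, hat⟩ := (hA_spec hAne x).2.2.1 t.1
        refine ⟨a, fun _ => ⟨ha, ?_⟩, fun h => absurd h htA⟩
        rw [← hat, hAh]
        exact (H69.mem_touch.1 ht).2
      · exact ⟨t, fun h => absurd h ht, fun h => absurd h htA⟩
  choose α hα hα' using hal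
  set C : HP → Finset HP := fun a => T.filter fun t => α t = a with hC
  have hmC : ∀ a t, t ∈ C a ↔ t ∈ T ∧ α t = a := fun a t => by
    rw [hC]; exact Finset.mem_filter
  have hself : ∀ a ∈ A, a ∈ C a := fun a ha => (hmC a a).2 ⟨hAT ha, hα' a ha⟩
  have hC2 : ∀ a ∈ A, (C a).card ≤ 2 := by
    intro a ha
    by_contra hcon
    push Not at hcon
    obtain ⟨r, s, t, hr, hs, ht, hrs, hrt, hst⟩ := Finset.two_lt_card_iff.1 hcon
    have hr' := (hmC a r).1 hr
    have hs' := (hmC a s).1 hs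
    have ht' := (hmC a t).1 ht
    have pr := (hα r hr'.1).2
    have ps := (hα s hs'.1).2
    have pt := (hα t ht'.1).2
    rw [hr'.2] at pr
    rw [hs'.2] at ps
    rw [ht'.2] at pt
    have hvx : VxOf X r s (x a) :=
      ⟨(hx a (hAT ha)).2.1, hTX hr'.1, hTX hs'.1, hrs, pr, ps⟩
    rcases v1 r s (x a) hvx t (hTX ht'.1) pt with h1 | h1
    · exact hrt h1.symm
    · exact hst h1.symm
  have hsum : T.card = ∑ a ∈ A, (C a).card :=
    Finset.card_eq_sum_card_fiberwise fun t ht => (hα t ht).1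
  have hCT : ∀ a, C a ⊆ T := fun a => Finset.filter_subset _ _
  have hdis : ∀ a b, a ≠ b → Disjoint (C a) (C b) := by
    intro a b hab
    rw [Finset.disjoint_left]
    intro t h1 h2
    exact hab (((hmC a t).1 h1).2.symm.trans ((hmC b t).1 h2).2)
  have hm3 : 3 ≤ A.card := by
    have h1 : ∑ a ∈ A, (C a).card ≤ ∑ a ∈ A, 2 := Finset.sum_le_sum hC2
    rw [Finset.sum_const, smul_eq_mul] at h1
    omega
  have hne_erase : ∀ a, (A.erase a).Nonempty := by
    intro a
    rw [← Finset.card_pos]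
    have := Finset.pred_card_le_card_erase (s := A) (a := a)
    omega
  -- the hull without one point
  have tchE : ∀ B ⊆ A, B.Nonempty → ∀ t ∈ T, α t ∈ B → t ∈ touch X (hA B x) := fun B hB hne t ht h1 =>
    tch B (hB.trans hAT) hne t ht ⟨α t, h1, (hα t ht).2⟩
  have place : ∀ a ∈ A, 4 ≤ (T \ C a).card →
      ∃ g, Fits Y (mb g h) ∧ ∀ s ∈ T \ C a, mv g s ∈ Y := by
    intro a ha hc
    have hsE : A.erase a ⊆ T := (Finset.erase_subset a A).trans hAT
    refine lcx_use hlcx E (hA_spec (hne_erase a) x).1 hsub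
      (fits_mono (sub_le _ hsE (hne_erase a)) hfit) hfit
      (lt_ne _ hsE (hne_erase a) (hne1 a ha (hne_erase a))) hlam.le ?_ Finset.sdiff_subset hc
    intro t ht
    rw [Finset.mem_sdiff, hmC] at ht
    exact tchE _ (Finset.erase_subset a A) (hne_erase a) t ht.1
      (Finset.mem_erase.2 ⟨fun hh => ht.2 ⟨ht.1, hh⟩, (hα t ht.1).1⟩)
  -- two points
  have two : ∀ a ∈ A, ∀ b ∈ A, a ≠ b → 4 ≤ (T \ C a).card → 4 ≤ (T \ C b).card →
      3 ≤ (T \ (C a ∪ C b)).card → ∃ g, Fits Y (mb g h) ∧ ∀ s ∈ T, mv g s ∈ Y := by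
    intro a ha b hb hab ca cb cab
    obtain ⟨ga, fa, ma⟩ := place a ha ca
    obtain ⟨gb, fb, mb'⟩ := place b hb cb
    have hnB : ((A.erase a).erase b).Nonempty := by
      rw [← Finset.card_pos]
      have h1 := Finset.pred_card_le_card_erase (s := A) (a := a)
      have h2 := Finset.pred_card_le_card_erase (s := A.erase a) (a := b)
      omega
    have hsB : (A.erase a).erase b ⊆ A :=
      (Finset.erase_subset _ _).trans (Finset.erase_subset _ _)
    have hlt : lam (hA ((A.erase a).erase b) x) < L := by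
      refine lt_of_le_of_lt ?_ (lt_ne _ ((Finset.erase_subset a A).trans hAT) (hne_erase a)
        (hne1 a ha (hne_erase a)))
      refine (H69.lamS.2.1 _ _ (hA_spec hnB x).1 (hA_spec (hne_erase a) x).1 ?_).1
      intro w
      rw [(hA_spec hnB x).2.2.2]
      intro s hs
      exact (hA_spec (hne_erase a) x).2.1 w s (Finset.mem_of_mem_erase hs)
    have hgg : ga = gb := by
      refine unify E (hA_spec hnB x).1 (sub_le _ (hsB.trans hAT) hnB) hfit hlt fa fb
        (S := T \ (C a ∪ C b)) ?_ cab ?_ ?_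
      · intro t ht
        rw [Finset.mem_sdiff, Finset.mem_union, hmC, hmC] at ht
        refine tchE _ hsB hnB t ht.1 (Finset.mem_erase.2 ⟨fun hh => ht.2 (Or.inr ⟨ht.1, hh⟩),
          Finset.mem_erase.2 ⟨fun hh => ht.2 (Or.inl ⟨ht.1, hh⟩), (hα t ht.1).1⟩⟩)
      · intro s hs
        rw [Finset.mem_sdiff, Finset.mem_union] at hs
        exact ma s (Finset.mem_sdiff.2 ⟨hs.1, fun hh => hs.2 (Or.inl hh)⟩)
      · intro s hs
        rw [Finset.mem_sdiff, Finset.mem_union] at hs
        exact mb' s (Finset.mem_sdiff.2 ⟨hs.1, fun hh => hs.2 (Or.inr hh)⟩)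
    refine ⟨ga, fa, fun s hs => ?_⟩
    by_cases h1 : s ∈ C a
    · rw [hgg]
      exact mb' s (Finset.mem_sdiff.2 ⟨hs, fun h2 => Finset.disjoint_left.1 (hdis a b hab) h1 h2⟩)
    · exact ma s (Finset.mem_sdiff.2 ⟨hs, h1⟩)
  have card1 : ∀ a, (T \ C a).card + (C a).card = T.card := fun a =>
    Finset.card_sdiff_add_card_eq_card (hCT a)
  have card2 : ∀ a b, a ≠ b → (T \ (C a ∪ C b)).card + ((C a).card + (C b).card) = T.card := by
    intro a b hab
    rw [← Finset.card_union_of_disjoint (hdis a b hab)]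
    exact Finset.card_sdiff_add_card_eq_card (Finset.union_subset (hCT a) (hCT b))
  set D := A.filter fun a => (C a).card ≤ 1 with hD
  rcases Nat.lt_or_ge 1 D.card with hD2 | hD1
  · -- two single points
    obtain ⟨a, ha, b, hb, hab⟩ := Finset.one_lt_card.1 hD2
    rw [hD, Finset.mem_filter] at ha hb
    have e1 := card1 a
    have e2 := card1 b
    have e3 := card2 a b hab
    exact two a ha.1 b hb.1 hab (by omega) (by omega) (by omega)
  -- at most one single point
  have hsplit : D.card + (A \ D).card = A.card := by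
    rw [add_comm]
    exact Finset.card_sdiff_add_card_eq_card (Finset.filter_subset _ _)
  have hdouble : ∀ a ∈ A \ D, (C a).card = 2 := by
    intro a ha
    rw [Finset.mem_sdiff, hD, Finset.mem_filter] at ha
    have h1 := hC2 a ha.1
    have h2 : ¬ (C a).card ≤ 1 := fun hh => ha.2 ⟨ha.1, hh⟩
    omega
  obtain ⟨a, haD, b, hbD, hab⟩ := Finset.one_lt_card.1 (show 1 < (A \ D).card by omega)
  have ha := (Finset.mem_sdiff.1 haD).1
  have hb := (Finset.mem_sdiff.1 hbD).1
  have ca := hdouble a haD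
  have cb := hdouble b hbD
  have hge : 2 * A.card ≤ T.card + 1 := by
    have h1 : ∑ a ∈ A, (C a).card = ∑ a ∈ D, (C a).card + ∑ a ∈ A \ D, (C a).card := by
      rw [add_comm]
      exact (Finset.sum_sdiff (Finset.filter_subset _ _)).symm
    have h2 : ∑ a ∈ A \ D, (C a).card = ∑ a ∈ A \ D, 2 := Finset.sum_congr rfl hdouble
    rw [Finset.sum_const, smul_eq_mul] at h2
    have h3 : ∑ a ∈ D, 1 ≤ ∑ a ∈ D, (C a).card := by
      refine Finset.sum_le_sum fun a ha => ?_
      exact Finset.card_pos.2 ⟨a, hself a (Finset.mem_filter.1 ha).1⟩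
    rw [Finset.sum_const, smul_eq_mul] at h3
    omega
  rcases Nat.lt_or_ge 3 A.card with h4 | h3
  · have e1 := card1 a
    have e2 := card1 b
    have e3 := card2 a b hab
    exact two a ha b hb hab (by omega) (by omega) (by omega)
  -- a triangle
  have hA3 : A.card = 3 := le_antisymm h3 hm3
  obtain ⟨c, hc, hca, hcb⟩ : ∃ c ∈ A, c ≠ a ∧ c ≠ b := by
    obtain ⟨c, hc, hcab⟩ := Finset.exists_mem_notMem_of_card_lt_card
      (s := ({a, b} : Finset HP)) (t := A) (lt_of_le_of_lt Finset.card_le_two (by omega))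
    simp only [Finset.mem_insert, Finset.mem_singleton, not_or] at hcab
    exact ⟨c, hc, hcab.1, hcab.2⟩
  have hAabc : A = {a, b, c} := by
    symm
    apply Finset.eq_of_subset_of_card_le
    · intro s hs
      simp only [Finset.mem_insert, Finset.mem_singleton] at hs
      rcases hs with rfl | rfl | rfl <;> assumption
    · rw [hA3, Finset.card_eq_three.2 ⟨a, b, c, hab, hca.symm, hcb.symm, rfl⟩]
  have hxinj : ∀ s ∈ A, ∀ t ∈ A, s ≠ t → x s ≠ x t := by
    intro s hs t ht hst hcon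
    refine hne1 s hs (hne_erase s) ?_
    rw [← hAh]
    funext w
    refine le_antisymm ?_ ?_
    · rw [(hA_spec (hne_erase s) x).2.2.2]
      intro r hr
      exact (hA_spec hAne x).2.1 w r (Finset.mem_of_mem_erase hr)
    · rw [(hA_spec hAne x).2.2.2]
      intro r hr
      by_cases hrs : r = s
      · rw [hrs, hcon]
        exact (hA_spec (hne_erase s) x).2.1 w t (Finset.mem_erase.2 ⟨Ne.symm hst, ht⟩)
      · exact (hA_spec (hne_erase s) x).2.1 w r (Finset.mem_erase.2 ⟨hrs, hr⟩)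
  obtain ⟨a', ha', haa'⟩ := Finset.exists_mem_ne (show 1 < (C a).card by omega) a
  have ha'' := (hmC a a').1 ha'
  have pa : ip a.1 (x a) = a.2 := (hx a (hAT ha)).2.2
  have pa' : ip a'.1 (x a) = a'.2 := by
    have := (hα a' ha''.1).2
    rwa [ha''.2] at this
  have hcl : ∀ s ∈ A, x s ∈ Cl X := fun s hs => (hx s (hAT hs)).2.1
  have hvx : VxOf X a a' (x a) := ⟨hcl a ha, hTX (hAT ha), hTX ha''.1, Ne.symm haa', pa, pa'⟩
  have hvx' : VxOf X a' a (x a) := ⟨hcl a ha, hTX ha''.1, hTX (hAT ha), haa', pa', pa⟩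
  obtain ⟨s, hsC, w', hw', hsw, hlen⟩ : ∃ s ∈ C a, ∃ w' ∈ Cl X, ip s.1 w' = s.2 ∧
      ‖x b - w'‖ + ‖w' - x c‖ < ‖x b - x a‖ + ‖x a - x c‖ := by
    obtain ⟨q1, q2⟩ := hslx X E.pg a a' (x a) hvx (x b) (hcl b hb) (x c) (hcl c hc)
      (hxinj b hb a ha (Ne.symm hab)) (hxinj c hc a ha hca)
    obtain ⟨-, q3⟩ := hslx X E.pg a' a (x a) hvx' (x b) (hcl b hb) (x c) (hcl c hc)
      (hxinj b hb a ha (Ne.symm hab)) (hxinj c hc a ha hca)
    rcases q1 with q1 | q1
    · obtain ⟨w', h1, -, h2, h3⟩ := q2 q1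
      exact ⟨a, hself a ha, w', h1, h2, h3⟩
    · obtain ⟨w', h1, -, h2, h3⟩ := q3 q1
      exact ⟨a', ha', w', h1, h2, h3⟩
  have hsT := hCT a hsC
  -- the length of the triangle
  have htri : h = hf ![x b, x a, x c] := by
    funext w
    rw [H69.hf3]
    refine le_antisymm ?_ ?_
    · rw [← hAh, (hA_spec hAne x).2.2.2]
      intro r hr
      rw [hAabc] at hr
      simp only [Finset.mem_insert, Finset.mem_singleton] at hr
      rcases hr with rfl | rfl | rfl
      · exact le_max_of_le_left (le_max_right _ _)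
      · exact le_max_of_le_left (le_max_left _ _)
      · exact le_max_right _ _
    · exact max_le (max_le ((hx b (hAT hb)).1 w) ((hx a (hAT ha)).1 w)) ((hx c (hAT hc)).1 w)
  have hlamh : ‖x b - x a‖ + ‖x a - x c‖ + ‖x c - x b‖ = L := by
    rw [← H69.lam3, ← htri, hlam]
  have hlamk : lam (hf ![x b, w', x c]) < L := by
    rw [H69.lam3]
    linarith
  have hpts : ∀ i : Fin 3, (![x b, w', x c] : Fin 3 → ℂ) i ∈ Cl X := by
    intro i
    fin_cases i
    · exact hcl b hb
    · exact hw'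
    · exact hcl c hc
  obtain ⟨mx1, mx2⟩ := (H69.mixS X).2.2 2 ![x b, w', x c] hpts
  have hsubk : Sublin (hf ![x b, w', x c]) := (H69.hul 2 _).1
  -- first placement
  have e1 := card1 c
  have hTabc : T.card = (C a).card + (C b).card + (C c).card := by
    rw [hsum, hAabc, Finset.sum_insert, Finset.sum_insert, Finset.sum_singleton]
    · ring
    · simpa using Ne.symm hcb
    · simp only [Finset.mem_insert, Finset.mem_singleton, not_or]
      exact ⟨hab, Ne.symm hca⟩
  obtain ⟨gc, fc, mc⟩ := place c hc (by omega)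
  -- second placement
  have hsb : s ∉ C b := fun hh => Finset.disjoint_left.1 (hdis a b hab) hsC hh
  have hsc : s ∉ C c := fun hh => Finset.disjoint_left.1 (hdis a c (Ne.symm hca)) hsC hh
  obtain ⟨gs, fs, ms⟩ := lcx_use hlcx E hsubk hsub mx1 hfit hlamk hlam.le
    (T1 := insert s (C b ∪ C c)) (by
      intro t ht
      rw [mx2]
      rw [Finset.mem_insert, Finset.mem_union, hmC, hmC] at ht
      rcases ht with rfl | ht | ht
      · exact ⟨hTX hsT, 1, hsw⟩
      · refine ⟨hTX ht.1, 0, ?_⟩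
        have := (hα t ht.1).2
        rw [ht.2] at this
        exact this
      · refine ⟨hTX ht.1, 2, ?_⟩
        have := (hα t ht.1).2
        rw [ht.2] at this
        exact this)
    (by
      intro t ht
      rw [Finset.mem_insert, Finset.mem_union] at ht
      rcases ht with rfl | ht | ht
      · exact hsT
      · exact hCT b ht
      · exact hCT c ht)
    (by
      rw [Finset.card_insert_of_notMem (by rw [Finset.mem_union]; tauto),
        Finset.card_union_of_disjoint (hdis b c (Ne.symm hcb))]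
      have := Finset.card_pos.2 ⟨c, hself c hc⟩
      omega)
  have hgg : gc = gs := by
    refine unify E (hA_spec (hne_erase c) x).1
      (sub_le _ ((Finset.erase_subset c A).trans hAT) (hne_erase c)) hfit
      (lt_ne _ ((Finset.erase_subset c A).trans hAT) (hne_erase c) (hne1 c hc (hne_erase c)))
      fc fs (S := insert s (C b)) ?_ ?_ ?_ ?_
    · intro t ht
      rw [Finset.mem_insert, hmC] at ht
      rcases ht with rfl | ht
      · refine tchE _ (Finset.erase_subset c A) (hne_erase c) t hsT ?_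
        rw [((hmC a t).1 hsC).2]
        exact Finset.mem_erase.2 ⟨Ne.symm hca, ha⟩
      · refine tchE _ (Finset.erase_subset c A) (hne_erase c) t ht.1 ?_
        rw [ht.2]
        exact Finset.mem_erase.2 ⟨Ne.symm hcb, hb⟩
    · rw [Finset.card_insert_of_notMem hsb]
      omega
    · intro t ht
      rw [Finset.mem_insert] at ht
      rcases ht with rfl | ht
      · exact mc t (Finset.mem_sdiff.2 ⟨hsT, hsc⟩)
      · exact mc t (Finset.mem_sdiff.2 ⟨hCT b ht, fun hh =>
          Finset.disjoint_left.1 (hdis b c (Ne.symm hcb)) ht hh⟩)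
    · intro t ht
      rw [Finset.mem_insert] at ht
      exact ms t (Finset.mem_insert.2 (ht.imp id fun hh => Finset.mem_union_left _ hh))
  refine ⟨gc, fc, fun t ht => ?_⟩
  by_cases h1 : t ∈ C c
  · rw [hgg]
    exact ms t (Finset.mem_insert_of_mem (Finset.mem_union_right _ h1))
  · exact mc t (Finset.mem_sdiff.2 ⟨ht, h1⟩)

end Pool.Agent.XQ
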