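import Pool.Agent.Helper16_XQ.StmtG
import Pool.Agent.Helper69_AEU.Tools
import Pool.Agent.Helper69_AEU.Lam
import Pool.Agent.Helper69_AEU.Per
import Pool.Agent.Helper72_AEU.ACT

/-!
Squad XQ, module G_R9X: at most one perpendicular of length `L / 2` from a right-angled vertex.
-/

set_option autoImplicit false

namespace Pool.Agent.XQ

open MeasureTheory Complex Filter Topology Pool.Agent.H62T
open Pool.Agent.H16F (Sublin)
open Pool.Agent.AEU

namespace H87

/-! ### plane geometry -/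

theorem usq {z : ℂ} (h : ‖z‖ = 1) : z.re * z.re + z.im * z.im = 1 := by
  have h1 : Complex.normSq z = 1 := by rw [← Complex.sq_norm, h, one_pow]
  rwa [Complex.normSq_apply] at h1

theorem ip_comm (z w : ℂ) : ip z w = ip w z := by
  unfold ip; ring

theorem ip_self {z : ℂ} (h : ‖z‖ = 1) : ip z z = 1 := usq h

theorem orth_aux {a b c d : ℝ} (e1 : a * a + b * b = 1) (e2 : c * c + d * d = 1)
    (e3 : a * c + b * d = 0) : a * a + c * c = 1 ∧ a * b + c * d = 0 ∧ b * b + d * d = 1 := by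
  refine ⟨?_, ?_, ?_⟩
  · linear_combination (-a ^ 2) * e2 + (-c ^ 2) * e1 + (c ^ 2 + d ^ 2) * e1 + e2
      + (2 * a * c - (a * c + b * d)) * e3
  · linear_combination (b * c + a * d) * e3 - a * b * e2 - c * d * e1
  · linear_combination (-b ^ 2) * e2 + (-d ^ 2) * e1 + (c ^ 2 + d ^ 2) * e1 + e2
      + (2 * b * d - (a * c + b * d)) * e3

theorem orth {u w : ℂ} (hu : ‖u‖ = 1) (hw : ‖w‖ = 1) (h : ip u w = 0) (z : ℂ) :
    z = ((ip u z : ℝ) : ℂ) * u + ((ip w z : ℝ) : ℂ) * w := by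
  obtain ⟨h1, h2, h3⟩ := orth_aux (usq hu) (usq hw) h
  apply Complex.ext
  · simp only [add_re, re_ofReal_mul, ip]
    linear_combination (-z.re) * h1 - z.im * h2
  · simp only [add_im, im_ofReal_mul, ip]
    linear_combination (-z.re) * h2 - z.im * h3

theorem ip_add_r (z x y : ℂ) : ip z (x + y) = ip z x + ip z y := by
  simp only [ip, add_re, add_im]; ring

theorem ip_sub_r (z x y : ℂ) : ip z (x - y) = ip z x - ip z y := by
  simp only [ip, sub_re, sub_im]; ring

theorem ip_mul_r (c : ℝ) (z x : ℂ) : ip z ((c : ℂ) * x) = c * ip z x := by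
  simp only [ip, re_ofReal_mul, im_ofReal_mul]; ring

theorem ip_neg_r (z x : ℂ) : ip z (-x) = -ip z x := by
  simp only [ip, neg_re, neg_im]; ring

/-- expansion of the scalar product -/
theorem ip_exp {u w : ℂ} (hu : ‖u‖ = 1) (hw : ‖w‖ = 1) (h : ip u w = 0) (x y : ℂ) :
    ip x y = ip u x * ip u y + ip w x * ip w y := by
  conv_lhs => rw [orth hu hw h y]
  rw [ip_add_r, ip_mul_r, ip_mul_r, ip_comm x u, ip_comm x w]
  ring

theorem norm_sq_ip (x : ℂ) : ‖x‖ ^ 2 = ip x x := by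
  rw [Complex.sq_norm, Complex.normSq_apply]; rfl

theorem ip_I_self (z : ℂ) : ip z (I * z) = 0 := by
  simp only [ip, mul_re, mul_im, I_re, I_im]; ring

theorem eq_of_orth {u w z : ℂ} (hu : ‖u‖ = 1) (hw : ‖w‖ = 1) (h : ip u w = 0)
    (h1 : ip u z = 0) (h2 : ip w z = 0) : z = 0 := by
  rw [orth hu hw h z, h1, h2]; simp

/-- the unit vectors orthogonal to a unit vector -/
theorem perp_cases {u w : ℂ} (hu : ‖u‖ = 1) (hw : ‖w‖ = 1) (h : ip u w = 0) :
    w = I * u ∨ w = -(I * u) := by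
  have hI : ‖I * u‖ = 1 := by rw [norm_mul, Complex.norm_I, hu, one_mul]
  have e := orth hu hI (ip_I_self u) w
  rw [h] at e
  have e2 : ip (I * u) w * ip (I * u) w = 1 := by
    have := ip_exp hu hI (ip_I_self u) w w
    rw [h, ip_self hw] at this
    linarith
  rcases mul_self_eq_one_iff.1 e2 with h1 | h1
  · left
    rw [h1] at e
    simpa using e
  · right
    rw [h1] at e
    simpa using e

/-! ### first exit -/

theorem exit_lem {Q : Finset HP} (hc : IsCompact (Cl Q)) {x e : ℂ} (hx : x ∈ Cl Q) {R : ℝ}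
    (hR : 0 ≤ R) (hout : x + (R : ℂ) * e ∉ Cl Q) :
    ∃ τ : ℝ, 0 ≤ τ ∧ τ < R ∧ x + (τ : ℂ) * e ∈ Cl Q ∧
      ∃ u ∈ Q, ip u.1 (x + (τ : ℂ) * e) = u.2 ∧ 0 < ip u.1 e := by
  set S : Set ℝ := Set.Icc 0 R ∩ (fun τ : ℝ => x + (τ : ℂ) * e) ⁻¹' Cl Q with hS
  have hSc : IsCompact S := isCompact_Icc.inter_right (hc.isClosed.preimage (by fun_prop))
  have hSne : S.Nonempty := ⟨0, ⟨le_rfl, hR⟩, by simpa using hx⟩
  obtain ⟨τ, hτ, hmax⟩ := hSc.exists_isGreatest hSne
  have hτR : τ < R := by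
    rcases hτ.1.2.lt_or_eq with h | h
    · exact h
    · exact absurd (h ▸ hτ.2) hout
  refine ⟨τ, hτ.1.1, hτR, hτ.2, ?_⟩
  by_contra hcon
  push Not at hcon
  have hev : ∀ u ∈ Q, ∀ᶠ ε : ℝ in 𝓝[>] 0, ip u.1 (x + ((τ + ε : ℝ) : ℂ) * e) ≤ u.2 := by
    intro u hu
    have hform : ∀ ε : ℝ, ip u.1 (x + ((τ + ε : ℝ) : ℂ) * e)
        = ip u.1 (x + (τ : ℂ) * e) + ε * ip u.1 e := by
      intro ε
      rw [ip_add_r, ip_add_r, ip_mul_r, ip_mul_r]; ring
    have hle : ip u.1 (x + (τ : ℂ) * e) ≤ u.2 := hτ.2 u hu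
    rcases le_or_gt (ip u.1 e) 0 with h | h
    · filter_upwards [self_mem_nhdsWithin] with ε hε
      rw [hform]
      have : ε * ip u.1 e ≤ 0 := mul_nonpos_of_nonneg_of_nonpos (le_of_lt hε) h
      linarith
    · have hlt : ip u.1 (x + (τ : ℂ) * e) < u.2 := by
        rcases hle.lt_or_eq with h1 | h1
        · exact h1
        · exact absurd h (not_lt.2 (hcon u hu h1))
      have hcont : Tendsto (fun ε : ℝ => ip u.1 (x + (τ : ℂ) * e) + ε * ip u.1 e) (𝓝[>] 0)
          (𝓝 (ip u.1 (x + (τ : ℂ) * e) + 0 * ip u.1 e)) :=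
        (Continuous.tendsto (by fun_prop) 0).mono_left nhdsWithin_le_nhds
      rw [zero_mul, add_zero] at hcont
      filter_upwards [hcont.eventually_lt_const hlt] with ε hε
      rw [hform]
      exact hε.le
  have hev2 : ∀ᶠ ε : ℝ in 𝓝[>] 0, ∀ u ∈ Q, ip u.1 (x + ((τ + ε : ℝ) : ℂ) * e) ≤ u.2 :=
    (Finset.eventually_all Q).2 hev
  have hev3 : ∀ᶠ ε : ℝ in 𝓝[>] 0, ε < R - τ :=
    nhdsWithin_le_nhds (Iio_mem_nhds (by linarith))
  obtain ⟨ε, h1, h2, h3⟩ := (hev2.and (hev3.and self_mem_nhdsWithin)).exists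
  have h3' : (0 : ℝ) < ε := h3
  have := hmax (show τ + ε ∈ S from ⟨⟨by linarith [hτ.1.1], by linarith⟩, fun u hu => h1 u hu⟩)
  linarith

/-- points between two points of the polygon -/
theorem cl_between {Q : Finset HP} {x e : ℂ} {r t : ℝ} (hx : x ∈ Cl Q)
    (hr : x + (r : ℂ) * e ∈ Cl Q) (h0 : 0 ≤ t) (h1 : t ≤ r) : x + (t : ℂ) * e ∈ Cl Q := by
  intro u hu
  have a := hx u hu
  have b := hr u hu
  rw [ip_add_r, ip_mul_r] at b ⊢
  rcases le_or_gt (ip u.1 e) 0 with h | h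
  · have := mul_nonpos_of_nonneg_of_nonpos h0 h
    linarith
  · have := mul_le_mul_of_nonneg_right h1 h.le
    linarith

/-! ### short special bodies touch no perpendicular sides -/

theorem noPerp {P Q : Finset HP} {L : ℝ} (g1 : G1 P) (m2 : AllM Q P L) {b : ℂ → ℝ}
    (hb : Special Q b) (hl : lam b < L) {s t : HP} (hs : s ∈ touch Q b) (ht : t ∈ touch Q b)
    (hst : s ≠ t) (hp : ip s.1 t.1 = 0) : False := by
  obtain ⟨g, hg⟩ := m2 b hb hl
  refine g1.ne0 _ (hg.mem s hs) _ (hg.mem t ht) (fun h => hst (H69.mv_inj H72.act g h)) ?_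
  rw [H72.act.2.2.2.2.2.2.2.1]
  exact hp

/-- the segment from a vertex to a point on a third side -/
theorem seg_special {Q : Finset HP} {s t u : HP} {w x : ℂ} (hv : VxOf Q s t w) (hx : x ∈ Cl Q)
    (hu : u ∈ Q) (hus : u ≠ s) (hut : u ≠ t) (hux : ip u.1 x = u.2) :
    Special Q (hf ![w, x]) ∧ s ∈ touch Q (hf ![w, x]) ∧ t ∈ touch Q (hf ![w, x]) ∧
      u ∈ touch Q (hf ![w, x]) ∧ lam (hf ![w, x]) = 2 * ‖w - x‖ := by
  classical
  have hpts : ∀ i : Fin 2, (![w, x] : Fin 2 → ℂ) i ∈ Cl Q := by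
    intro i
    fin_cases i
    · exact hv.cl
    · exact hx
  obtain ⟨m1, m2⟩ := (H69.mixS Q).2.2 1 ![w, x] hpts
  have h1 : s ∈ touch Q (hf ![w, x]) := (m2 s).2 ⟨hv.mem₁, 0, hv.on₁⟩
  have h2 : t ∈ touch Q (hf ![w, x]) := (m2 t).2 ⟨hv.mem₂, 0, hv.on₂⟩
  have h3 : u ∈ touch Q (hf ![w, x]) := (m2 u).2 ⟨hu, 1, hux⟩
  refine ⟨⟨(H69.hul 1 _).1, m1, ?_, Or.inl ⟨w, ⟨s, t, hv⟩, (H69.hul 1 ![w, x]).2.1 0⟩⟩, h1, h2, h3,
    H69.lam2 w x⟩
  have hc : ({s, t, u} : Finset HP).card = 3 :=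
    Finset.card_eq_three.2 ⟨s, t, u, hv.ne, Ne.symm hus, Ne.symm hut, rfl⟩
  rw [← hc]
  refine Finset.card_le_card ?_
  intro r hr
  simp only [Finset.mem_insert, Finset.mem_singleton] at hr
  rcases hr with rfl | rfl | rfl <;> assumption

/-- the sides away from a right-angled vertex are at distance at least `L / 2` -/
theorem far {P Q : Finset HP} {L : ℝ} (g1 : G1 P) (m2 : AllM Q P L) {s t u : HP} {w x : ℂ}
    (hv : VxOf Q s t w) (hp : ip s.1 t.1 = 0) (hx : x ∈ Cl Q) (hu : u ∈ Q) (hus : u ≠ s)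
    (hut : u ≠ t) (hux : ip u.1 x = u.2) : L / 2 ≤ ‖w - x‖ := by
  by_contra hcon
  push Not at hcon
  obtain ⟨h1, h2, h3, -, h5⟩ := seg_special hv hx hu hus hut hux
  exact noPerp g1 m2 h1 (by rw [h5]; linarith) h2 h3 hv.ne hp

/-- quarter disc -/
theorem quarter {P Q : Finset HP} {L : ℝ} (g1 : G1 P) (m2 : AllM Q P L) (hc : IsCompact (Cl Q))
    (hL : 0 < L) {s t : HP} {w e : ℂ} (hv : VxOf Q s t w) (hp : ip s.1 t.1 = 0)
    (he : ‖e‖ = 1) (hs : ip s.1 e ≤ 0) (ht : ip t.1 e ≤ 0) :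
    w + ((L / 2 : ℝ) : ℂ) * e ∈ Cl Q := by
  by_contra hcon
  obtain ⟨τ, h0, h1, h2, u, hu, hu1, hu2⟩ := exit_lem hc hv.cl (by linarith only [hL]) hcon
  have := far g1 m2 hv hp h2 hu (fun h => by rw [h] at hu2; linarith)
    (fun h => by rw [h] at hu2; linarith) hu1
  rw [sub_add_cancel_left, norm_neg, norm_mul, he, mul_one, Complex.norm_real,
    Real.norm_of_nonneg h0] at this
  linarith

/-- data of a perpendicular from a right-angled vertex -/
structure RV (Q : Finset HP) (r : ℝ) (i j q : HP) (v : ℂ) : Prop where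
  vi : VxOf Q i j v
  perp : ip i.1 j.1 = 0
  qQ : q ∈ Q
  qi : q ≠ i
  qj : q ≠ j
  foot : ip q.1 v = q.2 - r
  inner : ∀ s ∈ Q, s ≠ q → ip s.1 (v + (r : ℂ) * q.1) < s.2
  r0 : 0 < r

theorem RV.neg {Q : Finset HP} {r : ℝ} {i j q : HP} {v : ℂ} (H : RV Q r i j q v) :
    ip i.1 q.1 < 0 ∧ ip j.1 q.1 < 0 := by
  constructor
  · have := H.inner i H.vi.mem₁ (Ne.symm H.qi)
    rw [ip_add_r, ip_mul_r, H.vi.on₁] at this
    by_contra hcon
    push Not at hcon
    have := mul_nonneg H.r0.le hcon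
    linarith
  · have := H.inner j H.vi.mem₂ (Ne.symm H.qj)
    rw [ip_add_r, ip_mul_r, H.vi.on₂] at this
    by_contra hcon
    push Not at hcon
    have := mul_nonneg H.r0.le hcon
    linarith

theorem VxOf.symm' {Q : Finset HP} {s t : HP} {v : ℂ} (h : VxOf Q s t v) : VxOf Q t s v :=
  ⟨h.cl, h.mem₂, h.mem₁, h.ne.symm, h.on₂, h.on₁⟩

/-! ### a second right-angled vertex -/

theorem second {P Q : Finset HP} {r : ℝ} (g1 : G1 P) (m2 : AllM Q P (2 * r)) (pg : Pg Q)
    (hc : IsCompact (Cl Q)) {i j q i' j' : HP} {v v' : ℂ} (H : RV Q r i j q v)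
    (hv' : VxOf Q i' j' v') (hp' : ip i'.1 j'.1 = 0) : v' = v ∨ ip q.1 v' = q.2 := by
  obtain ⟨n1, n2⟩ := H.neg
  have ui := pg.unit i H.vi.mem₁
  have uj := pg.unit j H.vi.mem₂
  have uq := pg.unit q H.qQ
  have ui' := pg.unit i' hv'.mem₁
  have uj' := pg.unit j' hv'.mem₂
  have hr := H.r0
  have hlow : ∀ x ∈ Cl Q, 0 ≤ ip q.1 (x - v) := by
    intro x hx
    rw [ip_exp ui uj H.perp q.1 (x - v), ip_sub_r, ip_sub_r, H.vi.on₁, H.vi.on₂]
    have h1 := hx i H.vi.mem₁
    have h2 := hx j H.vi.mem₂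
    nlinarith only [n1, h1, n2, h2]
  have hup : ∀ x ∈ Cl Q, ip q.1 (x - v) ≤ r := by
    intro x hx
    rw [ip_sub_r, H.foot]
    linarith [hx q H.qQ]
  have hquart : ∀ e : ℂ, ‖e‖ = 1 → ip i'.1 e ≤ 0 → ip j'.1 e ≤ 0 →
      v' + (r : ℂ) * e ∈ Cl Q := by
    intro e he h1 h2
    have := quarter g1 m2 hc (by linarith) hv' hp' he h1 h2
    rwa [mul_div_cancel_left₀ _ (two_ne_zero)] at this
  have hq1 : ip i'.1 q.1 * ip i'.1 q.1 + ip j'.1 q.1 * ip j'.1 q.1 = 1 := by
    rw [← ip_exp ui' uj' hp', ip_self uq]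
  -- mixed signs
  have mixed : ∀ s t : HP, ip s.1 t.1 = 0 → ‖s.1‖ = 1 → ‖t.1‖ = 1 →
      (∀ e : ℂ, ‖e‖ = 1 → ip s.1 e ≤ 0 → ip t.1 e ≤ 0 → v' + (r : ℂ) * e ∈ Cl Q) →
      ip s.1 q.1 * ip s.1 q.1 + ip t.1 q.1 * ip t.1 q.1 = 1 →
      ip s.1 q.1 < 0 → 0 < ip t.1 q.1 → False := by
    intro s t hst hs ht hqt hq2 hneg hpos
    have m1 := hqt (-s.1) (by rw [norm_neg, hs]) (by rw [ip_neg_r, ip_self hs]; norm_num)
      (by rw [ip_neg_r, ip_comm, hst]; norm_num)
    have m2' := hqt (-t.1) (by rw [norm_neg, ht]) (by rw [ip_neg_r, hst]; norm_num)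
      (by rw [ip_neg_r, ip_self ht]; norm_num)
    have a1 := hup _ m1
    have a2 := hlow _ m2'
    rw [ip_sub_r, ip_add_r, ip_mul_r, ip_neg_r, ip_comm q.1 s.1] at a1
    rw [ip_sub_r, ip_add_r, ip_mul_r, ip_neg_r, ip_comm q.1 t.1] at a2
    have a3 : ip t.1 q.1 - ip s.1 q.1 ≤ 1 := by
      by_contra hcon
      push Not at hcon
      nlinarith only [a1, a2, hr, hcon]
    nlinarith only [hq2, a3, hneg, hpos]
  rcases le_or_gt (ip i'.1 q.1) 0 with hA | hA <;> rcases le_or_gt (ip j'.1 q.1) 0 with hB | hB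
  · left
    have m1 := hup _ (hquart q.1 uq hA hB)
    have m2' := hlow _ hv'.cl
    rw [ip_sub_r, ip_add_r, ip_mul_r, ip_self uq, mul_one] at m1
    rw [ip_sub_r] at m2'
    have h0 : ip q.1 (v' - v) = 0 := by rw [ip_sub_r]; linarith
    rw [ip_exp ui uj H.perp q.1 (v' - v)] at h0
    have h1 : ip i.1 (v' - v) ≤ 0 := by
      rw [ip_sub_r, H.vi.on₁]; linarith [hv'.cl i H.vi.mem₁]
    have h2 : ip j.1 (v' - v) ≤ 0 := by
      rw [ip_sub_r, H.vi.on₂]; linarith [hv'.cl j H.vi.mem₂]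
    have h3 : 0 ≤ ip i.1 q.1 * ip i.1 (v' - v) := mul_nonneg_of_nonpos_of_nonpos n1.le h1
    have h4 : 0 ≤ ip j.1 q.1 * ip j.1 (v' - v) := mul_nonneg_of_nonpos_of_nonpos n2.le h2
    have h5 : ip i.1 (v' - v) = 0 := by
      have : ip i.1 q.1 * ip i.1 (v' - v) = 0 := by linarith
      exact (mul_eq_zero.1 this).resolve_left n1.ne
    have h6 : ip j.1 (v' - v) = 0 := by
      have : ip j.1 q.1 * ip j.1 (v' - v) = 0 := by linarith
      exact (mul_eq_zero.1 this).resolve_left n2.ne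
    exact sub_eq_zero.1 (eq_of_orth ui uj H.perp h5 h6)
  · rcases hA.lt_or_eq with hA' | hA'
    · exact absurd (mixed i' j' hp' ui' uj' hquart hq1 hA' hB) id
    · right
      have m1 := hlow _ (hquart (-q.1) (by rw [norm_neg, uq])
        (by rw [ip_neg_r, hA']; norm_num) (by rw [ip_neg_r]; linarith))
      rw [ip_sub_r, ip_add_r, ip_mul_r, ip_neg_r, ip_self uq, H.foot] at m1
      have := hv'.cl q H.qQ
      linarith
  · rcases hB.lt_or_eq with hB' | hB'
    · exact absurd (mixed j' i' (by rw [ip_comm]; exact hp') uj' ui'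
        (fun e he h1 h2 => hquart e he h2 h1) (by linarith) hB' hA) id
    · right
      have m1 := hlow _ (hquart (-q.1) (by rw [norm_neg, uq])
        (by rw [ip_neg_r]; linarith) (by rw [ip_neg_r, hB']; norm_num))
      rw [ip_sub_r, ip_add_r, ip_mul_r, ip_neg_r, ip_self uq, H.foot] at m1
      have := hv'.cl q H.qQ
      linarith
  · right
    have m1 := hlow _ (hquart (-q.1) (by rw [norm_neg, uq])
      (by rw [ip_neg_r]; linarith) (by rw [ip_neg_r]; linarith))
    rw [ip_sub_r, ip_add_r, ip_mul_r, ip_neg_r, ip_self uq, H.foot] at m1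
    have := hv'.cl q H.qQ
    linarith

/-- each vertex on the line of the other one: impossible -/
theorem cross {P Q : Finset HP} {r : ℝ} (g1 : G1 P) (m2 : AllM Q P (2 * r)) (pg : Pg Q)
    (hc : IsCompact (Cl Q)) {q q' k k' : HP} {v v' : ℂ} (hr : 0 < r) (hv : VxOf Q q' k v)
    (hv' : VxOf Q q k' v') (hp : ip q'.1 k.1 = 0) (hp' : ip q.1 k'.1 = 0)
    (n1 : ip q'.1 q.1 < 0) (n2 : ip k.1 q.1 < 0) (f1 : ip q.1 v = q.2 - r)
    (f2 : ip q'.1 v' = q'.2 - r) : False := by
  have uq := pg.unit q hv'.mem₁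
  have uq' := pg.unit q' hv.mem₁
  have uk := pg.unit k hv.mem₂
  have uk' := pg.unit k' hv'.mem₂
  have hq : ip q'.1 q.1 * ip q'.1 q.1 + ip k.1 q.1 * ip k.1 q.1 = 1 := by
    rw [← ip_exp uq' uk hp, ip_self uq]
  have hk : ip q'.1 k'.1 * ip q'.1 k'.1 + ip k.1 k'.1 * ip k.1 k'.1 = 1 := by
    rw [← ip_exp uq' uk hp, ip_self uk']
  have hqk : ip q'.1 q.1 * ip q'.1 k'.1 + ip k.1 q.1 * ip k.1 k'.1 = 0 := by
    rw [← ip_exp uq' uk hp, hp']
  have e1 : ip q'.1 (v' - v) = -r := by rw [ip_sub_r, hv.on₁, f2]; ring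
  have e2 : ip q.1 (v' - v) = r := by rw [ip_sub_r, hv'.on₁, f1]; ring
  have e3 : ip k.1 (v' - v) ≤ 0 := by rw [ip_sub_r, hv.on₂]; linarith [hv'.cl k hv.mem₂]
  rw [ip_exp uq' uk hp q.1 (v' - v), e1] at e2
  have a1 : 0 ≤ ip k'.1 (v' - v) := by rw [ip_sub_r, hv'.on₂]; linarith [hv.cl k' hv'.mem₂]
  rw [ip_exp uq' uk hp k'.1 (v' - v), e1] at a1
  have a2 : 0 ≤ ip k.1 k'.1 * ip k.1 (v' - v) := by
    have h1 := quarter g1 m2 hc (by linarith) hv hp (e := -q'.1) (by rw [norm_neg, uq'])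
      (by rw [ip_neg_r, ip_self uq']; norm_num) (by rw [ip_neg_r, ip_comm, hp]; norm_num)
    rw [mul_div_cancel_left₀ _ (two_ne_zero)] at h1
    have h2 := h1 k' hv'.mem₂
    rw [← hv'.on₂] at h2
    have h3 : ip k'.1 (v' - v) = ip k'.1 v' - ip k'.1 v := ip_sub_r _ _ _
    rw [ip_exp uq' uk hp k'.1 (v' - v), e1] at h3
    rw [ip_add_r, ip_mul_r, ip_neg_r, ip_comm k'.1 q'.1] at h2
    linarith
  set c := ip q'.1 q.1
  set s := ip k.1 q.1
  set p := ip q'.1 k'.1
  set o := ip k.1 k'.1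
  set y := ip k.1 (v' - v)
  -- `e2 : c * (-r) + s * y = r`, `a1 : 0 ≤ p * (-r) + o * y`, `a2 : 0 ≤ o * y`
  rcases lt_trichotomy o 0 with ho | ho | ho
  · -- `o < 0`
    have h1 : p * c = -(s * o) := by linarith
    have h2 : 0 < s * o := mul_pos_of_neg_of_neg n2 ho
    have h3 : p > 0 := by
      by_contra hcon
      push Not at hcon
      have := mul_nonneg_of_nonpos_of_nonpos hcon n1.le
      linarith
    -- multiply `a1` by `-c > 0` and use `h1`
    have h4 : 0 ≤ (-c) * (p * (-r) + o * y) := mul_nonneg (by linarith) a1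
    have h5 : (-c) * (p * (-r) + o * y) = o * (-(s * r) - c * y) := by
      have : (-c) * (p * (-r) + o * y) = (p * c) * r - c * o * y := by ring
      rw [this, h1]; ring
    rw [h5] at h4
    have h6 : -(s * r) - c * y ≤ 0 := by
      by_contra hcon
      push Not at hcon
      have := mul_neg_of_neg_of_pos ho hcon
      linarith
    -- `c * y ≥ - s r`, so `s * c * y ≤ - s * s * r` (s < 0)
    have h7 : s * (c * y) ≤ s * (-(s * r)) := mul_le_mul_of_nonpos_left (by linarith) n2.le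
    have h8 : c * (s * y) = c * (r + c * r) := by rw [show s * y = r + c * r by linarith]
    have h9 : c * r * (1 + c) ≤ -(s * s) * r := by linarith only [h7, h8]
    have h10 : s * s = 1 - c * c := by linarith
    rw [h10] at h9
    have h11 : r * (1 + c) ≤ 0 := by linarith only [h9]
    have h12 : 1 + c ≤ 0 := by
      by_contra hcon
      push Not at hcon
      have := mul_pos hr hcon
      linarith
    nlinarith only [hq, h12, n2]
  · rw [ho] at hqk hk
    have : p * p = 1 := by linarith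
    have h2 : c * p = 0 := by linarith
    rcases mul_eq_zero.1 h2 with h3 | h3
    · linarith
    · rw [h3] at this; norm_num at this
  · have hy : y = 0 := by
      refine le_antisymm e3 ?_
      by_contra hcon
      push Not at hcon
      have := mul_neg_of_pos_of_neg ho hcon
      linarith
    rw [hy] at e2
    have h1 : c = -1 := by nlinarith only [e2, hr]
    rw [h1] at hq
    have : s * s = 0 := by linarith
    have := mul_self_eq_zero.1 this
    linarith

theorem T_alg {s c T1 T2 : ℝ} (hc0 : 0 < c) (hT2pos : 0 < T2) (hcs : s * s + c * c = 1)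
    (hTT : T2 * T2 + T1 * T1 = 1) (hqT2 : s * T2 + c * T1 = 0) : T2 = c ∧ T1 = -s := by
  have h1 : T2 * T2 = c * c := by
    have h2 : c * T1 = -(s * T2) := by linarith
    have h3 : (c * T1) * (c * T1) = (s * T2) * (s * T2) := by rw [h2]; ring
    have h4 : c * c * (T1 * T1) = s * s * (T2 * T2) := by linarith
    have h5 : T1 * T1 = 1 - T2 * T2 := by linarith
    have h6 : s * s = 1 - c * c := by linarith
    rw [h5, h6] at h4
    linarith
  have hT2c : T2 = c := (mul_self_inj hT2pos.le hc0.le).1 h1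
  refine ⟨hT2c, ?_⟩
  rw [hT2c] at hqT2
  have : c * (s + T1) = 0 := by linarith
  have := (mul_eq_zero.1 this).resolve_left hc0.ne'
  linarith

theorem coord_alg {s c s' c' τ r : ℝ} (hr : 0 < r) (h0 : 0 ≤ τ) (hc0 : 0 < c) (hs0 : 0 < s)
    (hc0' : 0 < c') (hs0' : 0 < s') (hcs : s * s + c * c = 1) (hcs' : s' * s' + c' * c' = 1)
    (hκ : 0 < s' * c - c' * s) (hw : s' * (r * s + τ * c) + c' * (r * c - τ * s) ≤ r)
    (hn : 0 ≤ r * c - τ * s) :
    r * s + τ * c < r ∧ r * c - τ * s < r ∧ 0 < r * c - τ * s ∧ 0 < r * s + τ * c := by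
  have hsc : s < s' := by
    have h1 : c' * s < s' * c := by linarith
    have h2 : (c' * s) * (c' * s) < (s' * c) * (s' * c) :=
      mul_self_lt_mul_self (by positivity) h1
    have h3 : s * s < s' * s' := by
      have h4 : c' * c' = 1 - s' * s' := by linarith
      have h5 : c * c = 1 - s * s := by linarith
      have h6 : (c' * s) * (c' * s) = (c' * c') * (s * s) := by ring
      have h7 : (s' * c) * (s' * c) = (s' * s') * (c * c) := by ring
      rw [h6, h7, h4, h5] at h2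
      linarith
    exact lt_of_mul_self_lt_mul_self₀ hs0'.le h3
  have hcc : c' < c := by
    have h1 := mul_self_lt_mul_self hs0.le hsc
    exact lt_of_mul_self_lt_mul_self₀ hc0.le (by linarith)
  have hs1 : s < 1 := lt_of_mul_self_lt_mul_self₀ zero_le_one (by
    have := mul_pos hc0 hc0
    linarith)
  have hs1' : s' < 1 := lt_of_mul_self_lt_mul_self₀ zero_le_one (by
    have := mul_pos hc0' hc0'
    linarith)
  have hc1 : c < 1 := lt_of_mul_self_lt_mul_self₀ zero_le_one (by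
    have := mul_pos hs0 hs0
    linarith)
  have hw2r : r * s + τ * c < r := by
    have h1 : r * (c' * (1 - s) - c * (1 - s')) ≤ (s' * c - c' * s) * (r - (r * s + τ * c)) := by
      have h2 : s' * (r * s + τ * c) + c' * (r * c - τ * s) = r * (c * c' + s * s')
        + τ * (s' * c - c' * s) := by ring
      rw [h2] at hw
      have h3 : τ * (s' * c - c' * s) * c ≤ (r - r * (c * c' + s * s')) * c :=
        mul_le_mul_of_nonneg_right (by linarith) hc0.le
      have h4 : (s' * c - c' * s) * (r - (r * s + τ * c)) =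
        (s' * c - c' * s) * r * (1 - s) - τ * (s' * c - c' * s) * c := by ring
      rw [h4]
      have h5 : (s' * c - c' * s) * r * (1 - s) - (r - r * (c * c' + s * s')) * c
        = r * (c' * (s * s + c * c) - c' * s - c + c * s') := by ring
      rw [hcs] at h5
      have h6 : r * (c' * 1 - c' * s - c + c * s') = r * (c' * (1 - s) - c * (1 - s')) := by ring
      linarith
    have h2 : 0 < c' * (1 - s) - c * (1 - s') := by
      have h3 : c' * (1 - s) * ((1 + s) * (1 + s')) = c' * c * (c * (1 + s')) := by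
        have : (1 - s) * (1 + s) = c * c := by linarith
        calc c' * (1 - s) * ((1 + s) * (1 + s')) = c' * ((1 - s) * (1 + s)) * (1 + s') := by ring
          _ = _ := by rw [this]; ring
      have h4 : c * (1 - s') * ((1 + s) * (1 + s')) = c' * c * (c' * (1 + s)) := by
        have : (1 - s') * (1 + s') = c' * c' := by linarith
        calc c * (1 - s') * ((1 + s) * (1 + s')) = c * ((1 - s') * (1 + s')) * (1 + s) := by ring
          _ = _ := by rw [this]; ring
      have h5 : c' * (1 + s) < c * (1 + s') :=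
        mul_lt_mul hcc (by linarith) (by linarith) hc0.le
      have h6 : 0 < (c' * (1 - s) - c * (1 - s')) * ((1 + s) * (1 + s')) := by
        rw [sub_mul, h3, h4]
        have h7 : 0 < c' * c := by positivity
        have := mul_lt_mul_of_pos_left h5 h7
        linarith
      have h7 : 0 < (1 + s) * (1 + s') := by positivity
      exact (mul_pos_iff_of_pos_right h7).1 h6
    have h3 : 0 < r * (c' * (1 - s) - c * (1 - s')) := mul_pos hr h2
    by_contra hcon
    push Not at hcon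
    have := mul_nonpos_of_nonneg_of_nonpos hκ.le (show r - (r * s + τ * c) ≤ 0 by linarith)
    linarith
  have hw1r : r * c - τ * s < r := by
    have h1 : 0 ≤ τ * s := by positivity
    have h2 : r * c < r * 1 := mul_lt_mul_of_pos_left hc1 hr
    linarith
  have hw2pos : 0 < r * s + τ * c := by
    have h1 : 0 < r * s := mul_pos hr hs0
    have h2 : 0 ≤ τ * c := by positivity
    linarith
  refine ⟨hw2r, hw1r, ?_, hw2pos⟩
  rcases hn.lt_or_eq with h | h
  · exact h
  · exfalso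
    have hsumsq : (r * c - τ * s) * (r * c - τ * s) + (r * s + τ * c) * (r * s + τ * c)
      = (r * r + τ * τ) * (s * s + c * c) := by ring
    rw [hcs, mul_one, ← h] at hsumsq
    have h1 := mul_self_lt_mul_self hw2pos.le hw2r
    have h2 := mul_self_nonneg τ
    linarith

/-! ### two perpendiculars from the same vertex -/

/-- isometries exchanging two sides -/
theorem swap_false {P : Finset HP} (unitP : ∀ s ∈ P, ‖s.1‖ = 1) (G : GenX P) {g g' : Iso2}
    {i j q u : HP} (uj : ‖j.1‖ = 1) (hp : ip i.1 j.1 = 0) (hqu : q ≠ u)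
    (hqi : q ≠ i) (hui : u ≠ i) (hqj : q ≠ j) (huj : u ≠ j)
    (gq : mv g q ∈ P) (gu : mv g u ∈ P) (gi : mv g i ∈ P) (gj : mv g' j ∈ P)
    (e1 : mv g q = mv g' u) (e2 : mv g u = mv g' q) : False := by
  have inj : ∀ (f : Iso2) {s t : HP}, s ≠ t → mv f s ≠ mv f t := fun f s t h h' =>
    h (H69.mv_inj H72.act f h')
  set A := mv g q with hA
  set B := mv g u with hB
  set C := mv g i with hC
  set D := mv g' j with hD
  have uA := unitP A gq
  have uB := unitP B gu
  have uC := unitP C gi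
  have hAB : A ≠ B := inj g hqu
  have hCA : C ≠ A := inj g (Ne.symm hqi)
  have hCB : C ≠ B := inj g (Ne.symm hui)
  have hDA : D ≠ A := by rw [e1]; exact inj g' (Ne.symm huj)
  have hDB : D ≠ B := by rw [e2]; exact inj g' (Ne.symm hqj)
  set m : ℂ ≃ₗᵢ[ℝ] ℂ := g.linearIsometryEquiv.symm.trans g'.linearIsometryEquiv with hm
  have mA : m A.1 = B.1 := by
    rw [hm, LinearIsometryEquiv.trans_apply, hA]
    show g'.linearIsometryEquiv (g.linearIsometryEquiv.symm (g.linearIsometryEquiv q.1)) = _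
    rw [LinearIsometryEquiv.symm_apply_apply, e2]
    rfl
  have mB : m B.1 = A.1 := by
    rw [hm, LinearIsometryEquiv.trans_apply, hB]
    show g'.linearIsometryEquiv (g.linearIsometryEquiv.symm (g.linearIsometryEquiv u.1)) = _
    rw [LinearIsometryEquiv.symm_apply_apply, e1]
    rfl
  set J := g.linearIsometryEquiv j.1 with hJ
  have mJ : m J = D.1 := by
    rw [hm, LinearIsometryEquiv.trans_apply, hJ, LinearIsometryEquiv.symm_apply_apply]
    rfl
  have uJ : ‖J‖ = 1 := by rw [hJ, LinearIsometryEquiv.norm_map, uj]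
  have hCJ : ip C.1 J = 0 := by
    have := H72.act.2.2.2.2.2.2.2.1 g i j
    rw [hp] at this
    exact this
  have hAA : A.1 * (starRingEnd ℂ) A.1 = 1 := by
    rw [Complex.mul_conj, ← Complex.sq_norm, uA]; simp
  have hCC : C.1 * (starRingEnd ℂ) C.1 = 1 := by
    rw [Complex.mul_conj, ← Complex.sq_norm, uC]; simp
  have hlt := G.gen.g1.lt1 A gq B gu hAB
  obtain ⟨a, ha⟩ := linear_isometry_complex m
  have key : C.1 * D.1 = I * (A.1 * B.1) ∨ C.1 * D.1 = -(I * (A.1 * B.1)) := by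
    rcases ha with ha | ha
    · exfalso
      have h1 : (a : ℂ) * A.1 = B.1 := by rw [← mA, ha]; rfl
      have h2 : (a : ℂ) * B.1 = A.1 := by rw [← mB, ha]; rfl
      have h3 : ((a : ℂ) * a - 1) * A.1 = 0 := by
        rw [← h1] at h2
        linear_combination h2
      have hA0 : A.1 ≠ 0 := by
        intro h0
        rw [h0] at uA
        simp at uA
      have h4 : (a : ℂ) * a = 1 := by
        have := (mul_eq_zero.1 h3).resolve_right hA0
        linear_combination this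
      rcases mul_self_eq_one_iff.1 h4 with h5 | h5
      · rw [h5, one_mul] at h1
        rw [← h1, ip_self uA] at hlt
        norm_num at hlt
      · rw [h5, neg_one_mul] at h1
        rw [← h1, ip_neg_r, ip_self uA] at hlt
        norm_num at hlt
    · have hform : ∀ z, m z = (a : ℂ) * (starRingEnd ℂ) z := by
        intro z
        rw [ha]
        rfl
      have h1 : (a : ℂ) = A.1 * B.1 := by
        have h2 := mA
        rw [hform] at h2
        calc (a : ℂ) = (a : ℂ) * (A.1 * (starRingEnd ℂ) A.1) := by rw [hAA, mul_one]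
          _ = A.1 * ((a : ℂ) * (starRingEnd ℂ) A.1) := by ring
          _ = A.1 * B.1 := by rw [h2]
      have h3 : D.1 = A.1 * B.1 * (starRingEnd ℂ) J := by rw [← mJ, hform, h1]
      rcases perp_cases uC uJ hCJ with h4 | h4
      · right
        rw [h3, h4, map_mul, Complex.conj_I]
        linear_combination (-(I * (A.1 * B.1))) * hCC
      · left
        rw [h3, h4, map_neg, map_mul, Complex.conj_I]
        linear_combination (I * (A.1 * B.1)) * hCC
  by_cases hCD : C = D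
  · obtain ⟨x1, x2⟩ := G.x2 C A B ⟨gi, gq, gu, hCA, hCB, hAB⟩
    rw [← hCD] at key
    rcases key with h | h
    · exact x1 h
    · exact x2 h
  · obtain ⟨x1, x2⟩ := G.x1 C gi A gq D gj B gu ⟨hCA, hCD, hCB, Ne.symm hDA, hAB, hDB⟩
    rcases key with h | h
    · exact x1 h
    · exact x2 h

theorem same_core {P Q : Finset HP} {r : ℝ} (hunx : UnxStatement) (G : GenX P)
    (m2 : AllM Q P (2 * r)) (pg : Pg Q) (hc : IsCompact (Cl Q)) {i j q q' : HP} {v T : ℂ}
    (H : RV Q r i j q v) (H' : RV Q r i j q' v) (hT : ‖T‖ = 1) (hqT : ip q.1 T = 0)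
    (hqT' : 0 < ip q'.1 T) (hiT : ip i.1 T < 0) : False := by
  obtain ⟨n1, n2⟩ := H.neg
  obtain ⟨n1', n2'⟩ := H'.neg
  have g1 := G.gen.g1
  have ui := pg.unit i H.vi.mem₁
  have uj := pg.unit j H.vi.mem₂
  have uq := pg.unit q H.qQ
  have uq' := pg.unit q' H'.qQ
  have hr := H.r0
  have hp := H.perp
  have hqq' : q ≠ q' := fun h => by rw [h] at hqT; linarith
  -- the foot
  set f := v + (r : ℂ) * q.1 with hf
  have hfq : ip q.1 f = q.2 := by rw [hf, ip_add_r, ip_mul_r, ip_self uq, H.foot]; ring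
  have hfcl : f ∈ Cl Q := by
    intro s hs
    by_cases hsq : s = q
    · rw [hsq, hfq]
    · exact (H.inner s hs hsq).le
  have hfq' : ip q'.1 f < q'.2 := H.inner q' H'.qQ (Ne.symm hqq')
  obtain ⟨τ, h0, -, hw, u, hu, hu1, hu2⟩ := exit_lem hc hfcl (e := T)
    (R := (q'.2 - ip q'.1 f + 1) / ip q'.1 T) (div_nonneg (by linarith) hqT'.le) (by
      intro hcon
      have := hcon q' H'.qQ
      rw [ip_add_r, ip_mul_r, div_mul_cancel₀ _ hqT'.ne'] at this
      linarith)
  set w := f + (τ : ℂ) * T with hwdef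
  have huq : u ≠ q := fun h => by rw [h] at hu2; linarith
  have hwq : ip q.1 w = q.2 := by rw [hwdef, ip_add_r, ip_mul_r, hfq, hqT]; ring
  have hvw : VxOf Q q u w := ⟨hw, H.qQ, hu, Ne.symm huq, hwq, hu1⟩
  -- coordinates
  set c := -ip j.1 q.1 with hcdef
  set s := -ip i.1 q.1 with hsdef
  set c' := -ip j.1 q'.1 with hc'def
  set s' := -ip i.1 q'.1 with hs'def
  have hc0 : 0 < c := by linarith
  have hs0 : 0 < s := by linarith
  have hc0' : 0 < c' := by linarith
  have hs0' : 0 < s' := by linarith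
  have hcs : s * s + c * c = 1 := by
    have := ip_exp ui uj hp q.1 q.1
    rw [ip_self uq] at this
    rw [hsdef, hcdef]; linarith
  have hcs' : s' * s' + c' * c' = 1 := by
    have := ip_exp ui uj hp q'.1 q'.1
    rw [ip_self uq'] at this
    rw [hs'def, hc'def]; linarith
  set T1 := -ip j.1 T with hT1
  set T2 := -ip i.1 T with hT2
  have hT2pos : 0 < T2 := by linarith
  have hTT : T2 * T2 + T1 * T1 = 1 := by
    have := ip_exp ui uj hp T T
    rw [ip_self hT] at this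
    rw [hT2, hT1]; linarith only [this]
  have hqT2 : s * T2 + c * T1 = 0 := by
    have := ip_exp ui uj hp q.1 T
    rw [hqT] at this
    rw [hsdef, hcdef, hT2, hT1]; linarith only [this]
  have hκ : 0 < s' * T2 + c' * T1 := by
    have := ip_exp ui uj hp q'.1 T
    rw [hs'def, hc'def, hT2, hT1]; linarith
  obtain ⟨hT2c, hT1s⟩ := T_alg hc0 hT2pos hcs hTT hqT2
  rw [hT2c, hT1s] at hκ
  -- the coordinates of `w`
  have hz : w - v = (r : ℂ) * q.1 + (τ : ℂ) * T := by rw [hwdef, hf]; ring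
  set w1 := -ip j.1 (w - v) with hw1
  set w2 := -ip i.1 (w - v) with hw2
  have e1 : w1 = r * c - τ * s := by
    rw [hw1, hz, ip_add_r, ip_mul_r, ip_mul_r]
    have : ip j.1 T = s := by linarith only [hT1s]
    rw [this, hcdef]; ring
  have e2 : w2 = r * s + τ * c := by
    rw [hw2, hz, ip_add_r, ip_mul_r, ip_mul_r]
    have : ip i.1 T = -c := by linarith only [hT2c]
    rw [this, hsdef]; ring
  have hw1n : 0 ≤ w1 := by
    rw [hw1, ip_sub_r, H.vi.on₂]; linarith [hw j H.vi.mem₂]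
  have hq'w : s' * w2 + c' * w1 ≤ r := by
    have h1 := ip_exp ui uj hp q'.1 (w - v)
    have h2 : ip q'.1 (w - v) ≤ r := by
      rw [ip_sub_r, H'.foot]; linarith [hw q' H'.qQ]
    rw [h1] at h2
    rw [hs'def, hc'def, hw2, hw1]; linarith
  rw [e1, e2] at hq'w
  have hw1n' := hw1n
  rw [e1] at hw1n'
  obtain ⟨c1, c2, c3, c4⟩ := coord_alg hr h0 hc0 hs0 hc0' hs0' hcs hcs' (by linarith) hq'w hw1n'
  rw [← e2] at c1 c4
  rw [← e1] at c2 c3
  have hw2r : w2 < r := c1
  have hw1r : w1 < r := c2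
  have hw1pos : 0 < w1 := c3
  have hw2pos : 0 < w2 := c4
  have hzz : w - v = -((w2 : ℂ) * i.1) - (w1 : ℂ) * j.1 := by
    rw [orth ui uj hp (w - v)]
    have a1 : ip i.1 (w - v) = -w2 := by rw [hw2]; ring
    have a2 : ip j.1 (w - v) = -w1 := by rw [hw1]; ring
    rw [a1, a2]
    push_cast
    ring
  -- the two feet
  have cli : v + (w1 : ℂ) * (-j.1) ∈ Cl Q := by
    have h1 := quarter g1 m2 hc (by linarith) H.vi hp (e := -j.1) (by rw [norm_neg, uj])
      (by rw [ip_neg_r, hp]; norm_num) (by rw [ip_neg_r, ip_self uj]; norm_num)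
    rw [mul_div_cancel_left₀ _ (two_ne_zero)] at h1
    exact cl_between H.vi.cl h1 hw1n hw1r.le
  have clj : v + (w2 : ℂ) * (-i.1) ∈ Cl Q := by
    have h1 := quarter g1 m2 hc (by linarith) H.vi hp (e := -i.1) (by rw [norm_neg, ui])
      (by rw [ip_neg_r, ip_self ui]; norm_num) (by rw [ip_neg_r, ip_comm, hp]; norm_num)
    rw [mul_div_cancel_left₀ _ (two_ne_zero)] at h1
    exact cl_between H.vi.cl h1 hw2pos.le hw2r.le
  have oni : ip i.1 (v + (w1 : ℂ) * (-j.1)) = i.2 := by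
    rw [ip_add_r, ip_mul_r, ip_neg_r, hp, H.vi.on₁]; ring
  have onj : ip j.1 (v + (w2 : ℂ) * (-i.1)) = j.2 := by
    rw [ip_add_r, ip_mul_r, ip_neg_r, ip_comm j.1 i.1, hp, H.vi.on₂]; ring
  have hui : u ≠ i := by
    intro h
    have h1 : ip i.1 (w - v) = 0 := by rw [ip_sub_r, H.vi.on₁, ← h, hu1, sub_self]
    linarith
  have huj : u ≠ j := by
    intro h
    have h1 : ip j.1 (w - v) = 0 := by rw [ip_sub_r, H.vi.on₂, ← h, hu1, sub_self]
    linarith
  obtain ⟨si, ti1, ti2, ti3, li⟩ := seg_special hvw cli H.vi.mem₁ (Ne.symm H.qi) (Ne.symm hui) oni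
  obtain ⟨sj, tj1, tj2, tj3, lj⟩ := seg_special hvw clj H.vi.mem₂ (Ne.symm H.qj) (Ne.symm huj) onj
  have leni : ‖w - (v + (w1 : ℂ) * (-j.1))‖ = w2 := by
    have : w - (v + (w1 : ℂ) * (-j.1)) = -((w2 : ℂ) * i.1) := by
      linear_combination hzz
    rw [this, norm_neg, norm_mul, ui, mul_one, Complex.norm_real, Real.norm_of_nonneg hw2pos.le]
  have lenj : ‖w - (v + (w2 : ℂ) * (-i.1))‖ = w1 := by
    have : w - (v + (w2 : ℂ) * (-i.1)) = -((w1 : ℂ) * j.1) := by
      linear_combination hzz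
    rw [this, norm_neg, norm_mul, uj, mul_one, Complex.norm_real, Real.norm_of_nonneg hw1n]
  obtain ⟨g, hg⟩ := m2 _ si (by rw [li, leni]; linarith)
  obtain ⟨g', hg'⟩ := m2 _ sj (by rw [lj, lenj]; linarith)
  have hUN := (hunx.2 Q P pg.unit G.gen.pg g1 g g').1 q H.qQ u hu (Ne.symm huq)
    (hg.mem q ti1) (hg.mem u ti2) (hg'.mem q tj1) (hg'.mem u tj2)
  rcases hUN with h | ⟨h1, h2⟩
  · rw [← h] at hg'
    refine g1.ne0 _ (hg.mem i ti3) _ (hg'.mem j tj3)
      (fun h => H.vi.ne (H69.mv_inj H72.act g h)) ?_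
    rw [H72.act.2.2.2.2.2.2.2.1]
    exact hp
  · exact swap_false G.gen.pg.unit G uj hp (Ne.symm huq) H.qi hui H.qj huj
      (hg.mem q ti1) (hg.mem u ti2) (hg.mem i ti3) (hg'.mem j tj3) h1 h2

theorem same {P Q : Finset HP} {r : ℝ} (hvxx : VxxStatement) (hunx : UnxStatement) (G : GenX P)
    (m2 : AllM Q P (2 * r)) (pg : Pg Q) (hc : IsCompact (Cl Q)) {i j q q' : HP} {v : ℂ}
    (H : RV Q r i j q v) (H' : RV Q r i j q' v) : q = q' := by
  by_contra hne
  obtain ⟨n1, n2⟩ := H.neg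
  obtain ⟨n1', n2'⟩ := H'.neg
  have ui := pg.unit i H.vi.mem₁
  have uj := pg.unit j H.vi.mem₂
  have uq := pg.unit q H.qQ
  have uq' := pg.unit q' H'.qQ
  have hI : ‖I * q.1‖ = 1 := by rw [norm_mul, Complex.norm_I, uq, one_mul]
  -- `q` and `q'` are not parallel
  have hpar : ip q'.1 (I * q.1) ≠ 0 := by
    intro h0
    have hdt : dt q.1 q'.1 = 0 := by
      have : ip q'.1 (I * q.1) = dt q.1 q'.1 := by
        simp only [ip, dt, mul_re, mul_im, I_re, I_im]; ring
      rw [← this, h0]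
    have := (hvxx Q pg).2.2.2.2.2.2.2.2.2.1 q H.qQ q' H'.qQ hne hdt
    rw [this, ip_neg_r] at n1'
    linarith
  obtain ⟨T, hT, hqT, hqT'⟩ : ∃ T : ℂ, ‖T‖ = 1 ∧ ip q.1 T = 0 ∧ 0 < ip q'.1 T := by
    rcases lt_or_gt_of_ne hpar with h | h
    · exact ⟨-(I * q.1), by rw [norm_neg, hI], by rw [ip_neg_r, ip_I_self]; norm_num,
        by rw [ip_neg_r]; linarith⟩
    · exact ⟨I * q.1, hI, ip_I_self _, h⟩
  have hqT2 : ip i.1 q.1 * ip i.1 T + ip j.1 q.1 * ip j.1 T = 0 := by
    rw [← ip_exp ui uj H.perp, hqT]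
  have hTT : ip i.1 T * ip i.1 T + ip j.1 T * ip j.1 T = 1 := by
    rw [← ip_exp ui uj H.perp, ip_self hT]
  rcases lt_trichotomy (ip i.1 T) 0 with h | h | h
  · exact same_core hunx G m2 pg hc H H' hT hqT hqT' h
  · rw [h] at hqT2 hTT
    have h1 : ip j.1 q.1 * ip j.1 T = 0 := by linarith
    have h2 := (mul_eq_zero.1 h1).resolve_left n2.ne
    rw [h2] at hTT
    norm_num at hTT
  · have hj : ip j.1 T < 0 := by
      by_contra hcon
      push Not at hcon
      have a1 := mul_neg_of_neg_of_pos n1 h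
      have a2 := mul_nonpos_of_nonpos_of_nonneg n2.le hcon
      linarith
    have hsym : ∀ {q₀ : HP}, RV Q r i j q₀ v → RV Q r j i q₀ v := fun K =>
      ⟨VxOf.symm' K.vi, by rw [ip_comm]; exact K.perp, K.qQ, K.qj, K.qi, K.foot, K.inner, K.r0⟩
    exact same_core hunx G m2 pg hc (hsym H) (hsym H') hT hqT hqT' hj

end H87

open H87

theorem r9x (hvxx : VxxStatement) (hunx : UnxStatement) (htbx : TbxStatement) :
    R9xStatement := by
  intro P Q L hyp G pg hL h i j q v d h' i' j' q' v' d' hB hperp hlam hB' hperp' hlam'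
  obtain ⟨-, -, -, -, -, -, -, -, hc, -, -⟩ := id (hvxx Q pg)
  obtain ⟨-, -, -, t1, t2, -, t3, -⟩ := htbx Q pg h i j q v d hB
  obtain ⟨-, -, -, t1', t2', -, t3', -⟩ := htbx Q pg h' i' j' q' v' d' hB'
  set r := L / 2 with hr
  have hd : d = r := by rw [hr]; linarith
  have hd' : d' = r := by rw [hr]; linarith
  have m2 : AllM Q P (2 * r) := by
    have : 2 * r = L := by rw [hr]; ring
    rw [this]; exact hyp.m2
  have g1 := G.gen.g1
  rw [hd] at hB
  rw [hd'] at hB'
  have H : RV Q r i j q v := by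
    refine ⟨hB.vi, hperp, hB.qP, Ne.symm t1, Ne.symm t2, ?_, hB.inner, hB.pos⟩
    have := hB.foot
    rw [ip_add_r, ip_mul_r, ip_self (pg.unit q hB.qP)] at this
    linarith
  have H' : RV Q r i' j' q' v' := by
    refine ⟨hB'.vi, hperp', hB'.qP, Ne.symm t1', Ne.symm t2', ?_, hB'.inner, hB'.pos⟩
    have := hB'.foot
    rw [ip_add_r, ip_mul_r, ip_self (pg.unit q' hB'.qP)] at this
    linarith
  have v1 := (hvxx Q pg).1
  by_cases hvv : v' = v
  · subst hvv
    -- the same vertex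
    have hi' : i' = i ∨ i' = j := v1 i j v' H.vi i' H'.vi.mem₁ H'.vi.on₁
    have hj' : j' = i ∨ j' = j := v1 i j v' H.vi j' H'.vi.mem₂ H'.vi.on₂
    have hne := H'.vi.ne
    have hsym : RV Q r j' i' q' v' :=
      ⟨VxOf.symm' H'.vi, by rw [ip_comm]; exact H'.perp, H'.qQ, H'.qj, H'.qi, H'.foot, H'.inner,
        H'.r0⟩
    rcases hi' with rfl | rfl <;> rcases hj' with rfl | rfl
    · exact absurd rfl hne
    · rw [same hvxx hunx G m2 pg hc H H']
    · rw [same hvxx hunx G m2 pg hc H hsym]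
      ext x
      simp only [Finset.mem_insert, Finset.mem_singleton]
      tauto
    · exact absurd rfl hne
  · exfalso
    rcases second g1 m2 pg hc H H'.vi hperp' with h1 | h1
    · exact hvv h1
    rcases second g1 m2 pg hc H' H.vi hperp with h2 | h2
    · exact hvv h2.symm
    obtain ⟨n1, n2⟩ := H.neg
    obtain ⟨n1', n2'⟩ := H'.neg
    -- `q` is a side at `v'`, `q'` is a side at `v`
    have hq : q = i' ∨ q = j' := v1 i' j' v' H'.vi q H.qQ h1
    have hq' : q' = i ∨ q' = j := v1 i j v H.vi q' H'.qQ h2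
    have hpj : ip j.1 i.1 = 0 := by rw [ip_comm]; exact hperp
    have hpj' : ip j'.1 i'.1 = 0 := by rw [ip_comm]; exact hperp'
    rcases hq with e | e <;> rcases hq' with e' | e'
    · subst e; subst e'
      exact cross g1 m2 pg hc H.r0 H.vi H'.vi hperp hperp' n1 n2 H.foot H'.foot
    · subst e; subst e'
      exact cross g1 m2 pg hc H.r0 (VxOf.symm' H.vi) H'.vi hpj hperp' n2 n1 H.foot H'.foot
    · subst e; subst e'
      exact cross g1 m2 pg hc H.r0 H.vi (VxOf.symm' H'.vi) hperp hpj' n1 n2 H.foot H'.foot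
    · subst e; subst e'
      exact cross g1 m2 pg hc H.r0 (VxOf.symm' H.vi) (VxOf.symm' H'.vi) hpj hpj' n2 n1 H.foot
        H'.foot

end Pool.Agent.XQ
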